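import Pool.Agent.TorusTrace.Mixed

set_option autoImplicit false
set_option linter.unusedSectionVars false
set_option linter.unusedVariables false

/-!
The trace inequality: all cases, and superpositions.
-/

namespace Pool.Agent.TorusTrace

open Finset MeasureTheory ComplexConjugate
open scoped ENNReal NNReal

noncomputable section

variable {T : ℝ} {d : ℕ} [hT : Fact (0 < T)]

/-- `J = ∅`: densities decreasing in all coordinates. -/
theorem trace_empty (hd : 2 ≤ d) (p : ℝ) (hp : (d : ℝ) / 2 < p) :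
    ∃ C : ℝ≥0, ∀ (y : Fin d → AddCircle T) (f : (Fin d → AddCircle T) → ℝ≥0∞),
      Measurable f → DecrOff ∅ y f →
      ∀ (n : ℤ) (s : Finset (Fin d → ℤ)) (a : (Fin d → ℤ) → ℂ), (∀ k ∈ s, ∑ i, k i ^ 2 = n) →
      ∫⁻ x, ‖∑ k ∈ s, a k * chi k x‖ₑ ^ 2 * f x ≤ C * (∫⁻ x, f x ^ p) ^ (1 / p) *
        ∫⁻ x : Fin d → AddCircle T, ‖∑ k ∈ s, a k * chi k x‖ₑ ^ 2 := by
  classical
  have hT0 : 0 < T := hT.out
  have hd2 : (2 : ℝ) ≤ d := by exact_mod_cast hd
  have hp0 : 0 < p := by linarith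
  have hκeq : min 1 (2 / ((d : ℝ) - ((∅ : Finset (Fin d)).card : ℝ))) = 2 / (d : ℝ) := by
    rw [card_empty, Nat.cast_zero, sub_zero]
    apply min_eq_right
    rw [div_le_one (by linarith)]
    exact hd2
  have hκ0 : (0 : ℝ) < 2 / d := by positivity
  have hlt : 1 / p < (2 / d : ℝ) * 1 := by
    rw [mul_one, div_lt_div_iff₀ hp0 (by linarith)]
    linarith
  obtain ⟨ε, hε0, hε1, hε⟩ := exists_eps (2 / d : ℝ) 1 p hκ0 one_pos hlt
  obtain ⟨K, hK0, hK⟩ := eigen_box (T := T) hd (∅ : Finset (Fin d)) ε hε0 hε1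
  rw [hκeq] at hK
  set V : ℝ := T ^ d with hV
  have hV0 : 0 < V := by positivity
  obtain ⟨C, hC⟩ := engine (T := T) (∅ : Finset (Fin d)) p ((1 - ε) * (2 / d) * 1)
    (K * V ^ (-(1 / p))) hp0 (by positivity) hε
  refine ⟨C, ?_⟩
  intro y f hfm hf n s a hs
  apply hC y f hfm hf _ ((continuous_poly s a).measurable.enorm.pow_const 2)
  intro m g hgm hgd Γ hΓ hΓ2
  -- the density is constant
  set c : ℝ≥0∞ := g 0 with hc
  have hgc : ∀ x, g x = c := fun x => hgd (fun i hi => absurd hi (by simp))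
  have hvol : volume (Set.univ : Set (Fin d → AddCircle T)) = ENNReal.ofReal V := by
    rw [← Set.pi_univ Set.univ, volume_pi_pi]
    simp [AddCircle.measure_univ, ENNReal.ofReal_pow hT0.le, hV]
  have hcle : c ≤ ENNReal.ofReal (Γ * V ^ (-(1 / p))) := by
    have h1 : (∫⁻ x, g x ^ p) ^ (1 / p) = c * ENNReal.ofReal (V ^ (1 / p)) := by
      simp_rw [hgc]
      rw [lintegral_const, hvol, ENNReal.mul_rpow_of_nonneg _ _ (by positivity),
        ← ENNReal.rpow_mul, mul_one_div_cancel hp0.ne', ENNReal.rpow_one,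
        ENNReal.ofReal_rpow_of_pos hV0]
    rw [h1] at hΓ2
    calc c = c * ENNReal.ofReal (V ^ (1 / p)) * ENNReal.ofReal (V ^ (-(1 / p))) := by
          rw [mul_assoc, ← ENNReal.ofReal_mul (by positivity), ← Real.rpow_add hV0]
          simp
      _ ≤ ENNReal.ofReal Γ * ENNReal.ofReal (V ^ (-(1 / p))) := mul_le_mul_left hΓ2 _
      _ = _ := by rw [← ENNReal.ofReal_mul hΓ.le]
  simp_rw [hgc]
  have hmw : Measurable (fun x : Fin d → AddCircle T => ‖∑ k ∈ s, a k * chi k x‖ₑ ^ 2) :=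
    (continuous_poly s a).measurable.enorm.pow_const 2
  calc ∫⁻ x in shell ∅ y m, ‖∑ k ∈ s, a k * chi k x‖ₑ ^ 2 * c
      = (∫⁻ x in shell ∅ y m, ‖∑ k ∈ s, a k * chi k x‖ₑ ^ 2) * c := lintegral_mul_const c hmw
    _ ≤ (ENNReal.ofReal (K * (2 : ℝ) ^ (-((1 - ε) * (2 / d * ∑ i, (m i : ℝ))))) *
        ∫⁻ x : Fin d → AddCircle T, ‖∑ k ∈ s, a k * chi k x‖ₑ ^ 2) *
        ENNReal.ofReal (Γ * V ^ (-(1 / p))) := by
        apply mul_le_mul' _ hcle
        exact hK n s a hs y m (shell ∅ y m) (fun x hx i => (hx i).2)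
    _ = (ENNReal.ofReal (K * (2 : ℝ) ^ (-((1 - ε) * (2 / d * ∑ i, (m i : ℝ))))) *
        ENNReal.ofReal (Γ * V ^ (-(1 / p)))) *
        ∫⁻ x : Fin d → AddCircle T, ‖∑ k ∈ s, a k * chi k x‖ₑ ^ 2 := by ring
    _ = _ := by
        rw [← ENNReal.ofReal_mul (by positivity)]
        congr 2
        rw [mul_one, mul_assoc (1 - ε)]
        ring

/-- `L ^ q` trace inequality, `q = J.card`, for densities of one or two coordinates. -/
theorem trace_dep (J : Finset (Fin d)) (hJ1 : 1 ≤ J.card) (hJ2 : J.card ≤ 2) :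
    ∃ Cq : ℝ, 0 ≤ Cq ∧
    ∀ g : (Fin d → AddCircle T) → ℝ≥0∞, Measurable g → DependsOn g (J : Set (Fin d)) →
      ∀ (n : ℤ) (s : Finset (Fin d → ℤ)) (a : (Fin d → ℤ) → ℂ), (∀ k ∈ s, ∑ i, k i ^ 2 = n) →
      ∫⁻ x, ‖∑ k ∈ s, a k * chi k x‖ₑ ^ 2 * g x ≤ ENNReal.ofReal Cq *
        (∫⁻ x, g x ^ (J.card : ℝ)) ^ (1 / (J.card : ℝ)) *
        ∫⁻ x : Fin d → AddCircle T, ‖∑ k ∈ s, a k * chi k x‖ₑ ^ 2 := by
  classical
  have hT0 : 0 < T := hT.out
  have hV0 : 0 < T ^ d := by positivity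
  rcases Nat.lt_or_ge J.card 2 with h | h
  · have h1 : J.card = 1 := by omega
    obtain ⟨i, rfl⟩ := Finset.card_eq_one.1 h1
    refine ⟨2 / T ^ d, by positivity, ?_⟩
    intro g hgm hgd n s a hs
    refine (trace_one i g hgm hgd n s a hs).trans (le_of_eq ?_)
    have h2 : ∀ x, g x ^ ((({i} : Finset (Fin d)).card : ℕ) : ℝ) = g x := by
      intro x; simp
    simp_rw [h2]
    rw [lparseval]
    rw [card_singleton]
    simp only [Nat.cast_one, div_one, ENNReal.rpow_one]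
    rw [mul_right_comm, ← ENNReal.ofReal_mul (by positivity)]
    congr 2
    field_simp
  · have h1 : J.card = 2 := by omega
    obtain ⟨i, j, hij, rfl⟩ := Finset.card_eq_two.1 h1
    refine ⟨Real.sqrt (3 * T ^ d) / T ^ d, by positivity, ?_⟩
    intro g hgm hgd n s a hs
    refine (trace_two i j hij g hgm hgd n s a hs).trans (le_of_eq ?_)
    rw [lparseval, card_pair hij]
    push_cast
    rw [mul_right_comm, ← ENNReal.ofReal_mul (by positivity)]
    congr 2
    field_simp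

/-- Admissible densities: `f` is arbitrary in the coordinates of `J` (at most two of them) and
decreasing in the other coordinates, away from `y`; the exponent `p` is large enough. -/
def Adm (p : ℝ) (J : Finset (Fin d)) (y : Fin d → AddCircle T)
    (f : (Fin d → AddCircle T) → ℝ≥0∞) : Prop :=
  J.card ≤ 2 ∧ ((DecrOff J y f ∧ ((d : ℝ) + J.card) / 2 < p ∧ (J.card : ℝ) + 1 < p) ∨
    (DependsOn f (J : Set (Fin d)) ∧ 1 ≤ J.card ∧ (J.card : ℝ) ≤ p))

/-- comparison of the norms on the torus -/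
theorem norm_compare (q p : ℝ) (hq : 0 < q) (hqp : q ≤ p) (g : (Fin d → AddCircle T) → ℝ≥0∞)
    (hg : Measurable g) : (∫⁻ x, g x ^ q) ^ (1 / q) ≤
      (∫⁻ x, g x ^ p) ^ (1 / p) * ENNReal.ofReal ((T ^ d) ^ (1 / q - 1 / p)) := by
  have hT0 : 0 < T := hT.out
  have hvol : volume (Set.univ : Set (Fin d → AddCircle T)) = ENNReal.ofReal (T ^ d) := by
    rw [← Set.pi_univ Set.univ, volume_pi_pi]
    simp [AddCircle.measure_univ, ENNReal.ofReal_pow hT0.le]
  have h := eLpNorm'_le_eLpNorm'_mul_rpow_measure_univ (μ := (volume :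
    Measure (Fin d → AddCircle T))) hq hqp (f := g) hg.aestronglyMeasurable
  rw [hvol, ENNReal.ofReal_rpow_of_pos (by positivity)] at h
  exact h

theorem trace_adm_J (hd : 2 ≤ d) (p : ℝ) (J : Finset (Fin d)) :
    ∃ C : ℝ≥0, ∀ (y : Fin d → AddCircle T) (f : (Fin d → AddCircle T) → ℝ≥0∞),
      Measurable f → Adm p J y f →
      ∀ (n : ℤ) (s : Finset (Fin d → ℤ)) (a : (Fin d → ℤ) → ℂ), (∀ k ∈ s, ∑ i, k i ^ 2 = n) →
      ∫⁻ x, ‖∑ k ∈ s, a k * chi k x‖ₑ ^ 2 * f x ≤ C * (∫⁻ x, f x ^ p) ^ (1 / p) *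
        ∫⁻ x : Fin d → AddCircle T, ‖∑ k ∈ s, a k * chi k x‖ₑ ^ 2 := by
  classical
  have hT0 : 0 < T := hT.out
  by_cases hJ2 : J.card ≤ 2
  swap
  · exact ⟨0, fun y f _ h => absurd h.1 hJ2⟩
  rcases Nat.eq_zero_or_pos J.card with hJ0 | hJ0
  · -- J empty
    have hJe : J = ∅ := Finset.card_eq_zero.1 hJ0
    subst hJe
    by_cases hp : (d : ℝ) / 2 < p
    · obtain ⟨C, hC⟩ := trace_empty (T := T) hd p hp
      refine ⟨C, fun y f hfm hadm => ?_⟩
      rcases hadm.2 with h | h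
      · exact hC y f hfm h.1
      · exfalso
        have := h.2.1
        rw [hJ0] at this
        omega
    · refine ⟨0, fun y f hfm hadm => ?_⟩
      exfalso
      rcases hadm.2 with h | h
      · apply hp
        have := h.2.1
        rw [hJ0] at this
        simpa using this
      · have := h.2.1
        rw [hJ0] at this
        omega
  · have hq0 : (0 : ℝ) < J.card := by exact_mod_cast hJ0
    obtain ⟨Cq, hCq0, hCq⟩ := trace_dep (T := T) J hJ0 hJ2
    -- the estimate for densities of the coordinates of J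
    have hdep : (J.card : ℝ) ≤ p → ∀ (f : (Fin d → AddCircle T) → ℝ≥0∞),
        Measurable f → DependsOn f (J : Set (Fin d)) →
        ∀ (n : ℤ) (s : Finset (Fin d → ℤ)) (a : (Fin d → ℤ) → ℂ), (∀ k ∈ s, ∑ i, k i ^ 2 = n) →
        ∫⁻ x, ‖∑ k ∈ s, a k * chi k x‖ₑ ^ 2 * f x ≤
          (Cq * (T ^ d) ^ (1 / (J.card : ℝ) - 1 / p)).toNNReal * (∫⁻ x, f x ^ p) ^ (1 / p) *
          ∫⁻ x : Fin d → AddCircle T, ‖∑ k ∈ s, a k * chi k x‖ₑ ^ 2 := by
      intro hqp f hfm hfd n s a hs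
      refine (hCq f hfm hfd n s a hs).trans ?_
      apply mul_le_mul_left
      calc ENNReal.ofReal Cq * (∫⁻ x, f x ^ (J.card : ℝ)) ^ (1 / (J.card : ℝ))
          ≤ ENNReal.ofReal Cq * ((∫⁻ x, f x ^ p) ^ (1 / p) *
            ENNReal.ofReal ((T ^ d) ^ (1 / (J.card : ℝ) - 1 / p))) :=
            mul_le_mul_right (norm_compare _ p hq0 hqp f hfm) _
        _ = ENNReal.ofReal Cq * ENNReal.ofReal ((T ^ d) ^ (1 / (J.card : ℝ) - 1 / p)) *
            (∫⁻ x, f x ^ p) ^ (1 / p) := by ring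
        _ = _ := by rw [← ENNReal.ofReal_mul hCq0]; rfl
    by_cases hcond : ((d : ℝ) + J.card) / 2 < p ∧ (J.card : ℝ) + 1 < p ∧ J.card < d
    · obtain ⟨hp1, hp2, hJd⟩ := hcond
      have hqp : (J.card : ℝ) < p := by linarith
      have hp0 : 0 < p := hq0.trans hqp
      have hDpos : (0 : ℝ) < (d : ℝ) - J.card := by
        have : (J.card : ℝ) < d := by exact_mod_cast hJd
        linarith
      have hκ : 1 / p < min 1 (2 / ((d : ℝ) - J.card)) * (1 - J.card / p) := by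
        have h1 : 1 - (J.card : ℝ) / p = (p - J.card) / p := by field_simp
        rw [h1]
        rcases min_choice 1 (2 / ((d : ℝ) - J.card)) with h | h
        · rw [h, one_mul]
          apply div_lt_div_of_pos_right _ hp0
          linarith
        · rw [h, ← mul_div_assoc]
          apply div_lt_div_of_pos_right _ hp0
          rw [div_mul_eq_mul_div, lt_div_iff₀ hDpos]
          linarith
      obtain ⟨C, hC⟩ := trace_mixed_aux (T := T) hd J (J.card : ℝ) p Cq hq0 hqp hCq0 hCq hκ hJd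
      refine ⟨C + (Cq * (T ^ d) ^ (1 / (J.card : ℝ) - 1 / p)).toNNReal, ?_⟩
      intro y f hfm hadm n s a hs
      rcases hadm.2 with h | h
      · refine (hC y f hfm h.1 n s a hs).trans ?_
        apply mul_le_mul_left
        apply mul_le_mul_left
        push_cast
        exact le_self_add
      · refine (hdep h.2.2 f hfm h.1 n s a hs).trans ?_
        apply mul_le_mul_left
        apply mul_le_mul_left
        push_cast
        exact le_add_self
    · refine ⟨(Cq * (T ^ d) ^ (1 / (J.card : ℝ) - 1 / p)).toNNReal, ?_⟩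
      intro y f hfm hadm n s a hs
      rcases hadm.2 with h | h
      · -- then J is everything
        have hJd : ¬ J.card < d := fun h' => hcond ⟨h.2.1, h.2.2, h'⟩
        have hJu : J = univ := by
          apply Finset.eq_univ_of_card
          have := card_le_univ J
          rw [Fintype.card_fin] at this ⊢
          omega
        have hfd : DependsOn f (J : Set (Fin d)) := by
          intro x x' hxx
          have : x = x' := by
            funext i
            exact hxx i (by rw [hJu]; simp)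
          rw [this]
        exact hdep (by linarith [h.2.2]) f hfm hfd n s a hs
      · exact hdep h.2.2 f hfm h.1 n s a hs

/-- one constant for all `J` -/
theorem trace_adm (hd : 2 ≤ d) (p : ℝ) :
    ∃ C : ℝ≥0, ∀ (J : Finset (Fin d)) (y : Fin d → AddCircle T)
      (f : (Fin d → AddCircle T) → ℝ≥0∞), Measurable f → Adm p J y f →
      ∀ (n : ℤ) (s : Finset (Fin d → ℤ)) (a : (Fin d → ℤ) → ℂ), (∀ k ∈ s, ∑ i, k i ^ 2 = n) →
      ∫⁻ x, ‖∑ k ∈ s, a k * chi k x‖ₑ ^ 2 * f x ≤ C * (∫⁻ x, f x ^ p) ^ (1 / p) *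
        ∫⁻ x : Fin d → AddCircle T, ‖∑ k ∈ s, a k * chi k x‖ₑ ^ 2 := by
  classical
  choose C hC using trace_adm_J (T := T) hd p
  refine ⟨∑ J, C J, ?_⟩
  intro J y f hfm hadm n s a hs
  refine (hC J y f hfm hadm n s a hs).trans ?_
  apply mul_le_mul_left
  apply mul_le_mul_left
  exact_mod_cast Finset.single_le_sum (fun _ _ => zero_le) (mem_univ J)

/-- **Superpositions.** -/
theorem trace_superposition (hd : 2 ≤ d) (p : ℝ) :
    ∃ C : ℝ≥0, ∀ (Ω : Type) (_ : MeasurableSpace Ω) (ν : Measure Ω) (_ : SFinite ν)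
      (J : Ω → Finset (Fin d)) (y : Ω → Fin d → AddCircle T)
      (F : Ω → (Fin d → AddCircle T) → ℝ≥0∞), Measurable (Function.uncurry F) →
      (∀ ω, Adm p (J ω) (y ω) (F ω)) → ∀ f : (Fin d → AddCircle T) → ℝ≥0∞,
      (∀ᵐ x, f x ≤ ∫⁻ ω, F ω x ∂ν) →
      ∀ (n : ℤ) (s : Finset (Fin d → ℤ)) (a : (Fin d → ℤ) → ℂ), (∀ k ∈ s, ∑ i, k i ^ 2 = n) →
      ∫⁻ x, ‖∑ k ∈ s, a k * chi k x‖ₑ ^ 2 * f x ≤
        C * (∫⁻ ω, (∫⁻ x, F ω x ^ p) ^ (1 / p) ∂ν) *
        ∫⁻ x : Fin d → AddCircle T, ‖∑ k ∈ s, a k * chi k x‖ₑ ^ 2 := by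
  obtain ⟨C, hC⟩ := trace_adm (T := T) hd p
  refine ⟨C, ?_⟩
  intro Ω _ ν _ J y F hF hadm f hf n s a hs
  have hmw : Measurable (fun x : Fin d → AddCircle T => ‖∑ k ∈ s, a k * chi k x‖ₑ ^ 2) :=
    (continuous_poly s a).measurable.enorm.pow_const 2
  have hE : ∫⁻ x : Fin d → AddCircle T, ‖∑ k ∈ s, a k * chi k x‖ₑ ^ 2 ≠ ∞ := by
    rw [lparseval]; exact ENNReal.ofReal_ne_top
  have hFω : ∀ ω, Measurable (F ω) := fun ω => hF.comp measurable_prodMk_left
  calc ∫⁻ x, ‖∑ k ∈ s, a k * chi k x‖ₑ ^ 2 * f x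
      ≤ ∫⁻ x, ‖∑ k ∈ s, a k * chi k x‖ₑ ^ 2 * ∫⁻ ω, F ω x ∂ν := by
        apply lintegral_mono_ae
        filter_upwards [hf] with x hx
        exact mul_le_mul_right hx _
    _ = ∫⁻ x, ∫⁻ ω, ‖∑ k ∈ s, a k * chi k x‖ₑ ^ 2 * F ω x ∂ν := by
        apply lintegral_congr
        intro x
        rw [lintegral_const_mul]
        exact hF.comp measurable_prodMk_right
    _ = ∫⁻ ω, (∫⁻ x, ‖∑ k ∈ s, a k * chi k x‖ₑ ^ 2 * F ω x) ∂ν := by
        apply lintegral_lintegral_swap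
        apply Measurable.aemeasurable
        exact (hmw.comp measurable_fst).mul (hF.comp measurable_swap)
    _ ≤ ∫⁻ ω, C * (∫⁻ x, F ω x ^ p) ^ (1 / p) *
        (∫⁻ x : Fin d → AddCircle T, ‖∑ k ∈ s, a k * chi k x‖ₑ ^ 2) ∂ν := by
        apply lintegral_mono
        intro ω
        exact hC (J ω) (y ω) (F ω) (hFω ω) (hadm ω) n s a hs
    _ = _ := by
        rw [lintegral_mul_const' _ _ hE, lintegral_const_mul' _ _ ENNReal.coe_ne_top]

end

end Pool.Agent.TorusTrace
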