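import Mathlib

set_option autoImplicit false

/-!
Counting Gaussian integers of given norm, and lattice points of a circle in a small box.
-/

namespace Pool.Agent.TorusTrace

open Finset

/-- Structure of Gaussian integers of norm `p ^ e * m`, `p` prime, `p` not dividing `m`. -/
theorem exists_prime_param (p : ℕ) (hp : p.Prime) :
    ∃ π : GaussianInt, 2 ≤ π.norm ∧ ∀ (e m : ℕ), ¬ p ∣ m → 0 < m → ∀ z : GaussianInt,
      z.norm = ((p ^ e * m : ℕ) : ℤ) → ∃ (a b : ℕ) (v : GaussianInt), a ≤ e ∧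
        z = π ^ a * star π ^ b * v ∧ v.norm = (m : ℤ) ∧ π.norm ^ (a + b) = (p : ℤ) ^ e := by
  have hp2 : ¬ IsUnit (p : GaussianInt) := by
    intro h
    rw [← Zsqrtd.norm_eq_one_iff' (by norm_num)] at h
    have h1 : (p : GaussianInt).norm = (p : ℤ) * p := by
      rw [Zsqrtd.norm_natCast]
    rw [h1] at h
    have h2 : (2 : ℤ) ≤ p := by exact_mod_cast hp.two_le
    nlinarith
  have hp0 : (p : GaussianInt) ≠ 0 := by
    intro h
    have : (p : GaussianInt).re = 0 := by rw [h]; rfl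
    simp at this
    exact hp.ne_zero this
  obtain ⟨π, hirr, hdvd⟩ := WfDvdMonoid.exists_irreducible_factor hp2 hp0
  have hprime : Prime π := hirr.prime
  have hn0 : π.norm ≠ 1 := by
    rw [Ne, Zsqrtd.norm_eq_one_iff' (by norm_num)]
    exact hirr.not_isUnit
  have hnn : 0 ≤ π.norm := GaussianInt.norm_nonneg π
  have hnz : π.norm ≠ 0 := by
    intro h
    have := (GaussianInt.norm_eq_zero).1 h
    exact hprime.ne_zero this
  have hn2 : 2 ≤ π.norm := by omega
  -- the norm of π is a power of p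
  have hnp : ∃ j, 1 ≤ j ∧ π.norm = (p : ℤ) ^ j := by
    obtain ⟨c, hc⟩ := hdvd
    have h1 : (p : GaussianInt).norm = π.norm * c.norm := by
      rw [hc, Zsqrtd.norm_mul]
    rw [Zsqrtd.norm_natCast] at h1
    have h2 : π.norm.natAbs ∣ p ^ 2 := by
      have : (π.norm.natAbs : ℤ) ∣ ((p ^ 2 : ℕ) : ℤ) := by
        rw [Int.natCast_natAbs, abs_of_nonneg hnn]
        exact ⟨c.norm, by push_cast; linarith [h1, sq (p : ℤ)]⟩
      exact_mod_cast this
    obtain ⟨j, hj, hj2⟩ := (Nat.dvd_prime_pow hp).1 h2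
    have h3 : π.norm = (p : ℤ) ^ j := by
      have : (π.norm.natAbs : ℤ) = ((p ^ j : ℕ) : ℤ) := by rw [hj2]
      rw [Int.natCast_natAbs, abs_of_nonneg hnn] at this
      rw [this]; push_cast; ring
    refine ⟨j, ?_, h3⟩
    rcases Nat.eq_zero_or_pos j with h | h
    · rw [h, pow_zero] at h3
      exact absurd h3 hn0
    · exact h
  obtain ⟨j, hj1, hj⟩ := hnp
  refine ⟨π, hn2, ?_⟩
  intro e m hpm hm z hz
  have hpe : 0 < p ^ e * m := Nat.mul_pos (pow_pos hp.pos e) hm
  have hz0 : z ≠ 0 := by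
    intro h
    rw [h, Zsqrtd.norm_zero] at hz
    have : p ^ e * m = 0 := by exact_mod_cast hz.symm
    omega
  obtain ⟨w, hw, hw2⟩ := (FiniteMultiplicity.of_not_isUnit (a := π) (b := z)
    hirr.not_isUnit hz0).exists_eq_pow_mul_and_not_dvd
  set a := multiplicity π z with ha
  have hw0 : w ≠ 0 := by
    intro h
    rw [h, mul_zero] at hw
    exact hz0 hw
  have hsu : ¬ IsUnit (star π) := by
    rw [← Zsqrtd.norm_eq_one_iff' (by norm_num), Zsqrtd.norm_conj]
    exact hn0
  obtain ⟨v, hv, hv2⟩ := (FiniteMultiplicity.of_not_isUnit (a := star π) (b := w)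
    hsu hw0).exists_eq_pow_mul_and_not_dvd
  set b := multiplicity (star π) w with hb
  have hpv : ¬ (p : ℤ) ∣ v.norm := by
    rintro ⟨c, hc⟩
    have h1 : π ∣ v * star v := by
      rw [← Zsqrtd.norm_eq_mul_conj, hc]
      push_cast
      exact Dvd.dvd.mul_right hdvd _
    rcases hprime.dvd_or_dvd h1 with h2 | h2
    · apply hw2
      rw [hv]
      exact Dvd.dvd.mul_left h2 _
    · apply hv2
      obtain ⟨c', hc'⟩ := h2
      refine ⟨star c', ?_⟩
      rw [← star_star v, hc', star_mul, mul_comm]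
  have hnorm : z.norm = (p : ℤ) ^ (j * (a + b)) * v.norm := by
    rw [hw, hv]
    have hpow : ∀ (x : GaussianInt) (n : ℕ), (x ^ n).norm = x.norm ^ n := by
      intro x n
      exact map_pow Zsqrtd.normMonoidHom x n
    rw [Zsqrtd.norm_mul, Zsqrtd.norm_mul, hpow, hpow, Zsqrtd.norm_conj, hj]
    ring
  have hvn : 0 ≤ v.norm := GaussianInt.norm_nonneg v
  obtain ⟨V, hV⟩ := Int.eq_ofNat_of_zero_le hvn
  rw [hV] at hnorm hpv
  have hpV : ¬ p ∣ V := by
    intro h
    exact hpv (by exact_mod_cast h)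
  have heq : p ^ e * m = p ^ (j * (a + b)) * V := by
    have : ((p ^ e * m : ℕ) : ℤ) = ((p ^ (j * (a + b)) * V : ℕ) : ℤ) := by
      rw [← hz, hnorm]; push_cast; ring
    exact_mod_cast this
  have hee : e = j * (a + b) := by
    rcases lt_trichotomy e (j * (a + b)) with h | h | h
    · exfalso
      obtain ⟨c, hc⟩ := Nat.exists_eq_add_of_lt h
      rw [hc, pow_add, pow_add, mul_assoc, mul_assoc] at heq
      have h3 := Nat.eq_of_mul_eq_mul_left (pow_pos hp.pos e) heq
      exact hpm ⟨p ^ c * V, by rw [h3, pow_one]; ring⟩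
    · exact h
    · exfalso
      obtain ⟨c, hc⟩ := Nat.exists_eq_add_of_lt h
      rw [hc, pow_add, pow_add, mul_assoc, mul_assoc] at heq
      have h3 := Nat.eq_of_mul_eq_mul_left (pow_pos hp.pos _) heq
      exact hpV ⟨p ^ c * m, by rw [← h3, pow_one]; ring⟩
  have hVm : m = V := by
    rw [hee] at heq
    exact Nat.eq_of_mul_eq_mul_left (pow_pos hp.pos _) heq
  refine ⟨a, b, v, ?_, ?_, ?_, ?_⟩
  · rw [hee]
    nlinarith [Nat.zero_le a, Nat.zero_le b]
  · rw [mul_assoc, ← hv, ← hw]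
  · rw [hV, hVm]
  · rw [hj, ← pow_mul, ← hee]

/-- One step of the count: passing from norm `m` to norm `p ^ e * m`. -/
theorem card_step (p : ℕ) (hp : p.Prime) (e m : ℕ) (hpm : ¬ p ∣ m) (hm : 0 < m) (B : ℕ)
    (hB : ∀ s : Finset GaussianInt, (∀ z ∈ s, z.norm = (m : ℤ)) → s.card ≤ B)
    (s : Finset GaussianInt) (hs : ∀ z ∈ s, z.norm = ((p ^ e * m : ℕ) : ℤ)) :
    s.card ≤ (e + 1) * B := by
  classical
  obtain ⟨π, hn2, hπ⟩ := exists_prime_param p hp
  have hex : ∀ z : GaussianInt, ∃ (a b : ℕ) (v : GaussianInt), z ∈ s → (a ≤ e ∧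
        z = π ^ a * star π ^ b * v ∧ v.norm = (m : ℤ) ∧ π.norm ^ (a + b) = (p : ℤ) ^ e) := by
    intro z
    by_cases hz : z ∈ s
    · obtain ⟨a, b, v, h⟩ := hπ e m hpm hm z (hs z hz)
      exact ⟨a, b, v, fun _ => h⟩
    · exact ⟨0, 0, 0, fun h => absurd h hz⟩
  choose a b v hab using hex
  have h1 : s.card ≤ B * (range (e + 1)).card := by
    apply Finset.card_le_mul_card_image_of_maps_to (f := a)
    · intro z hz
      rw [mem_range]
      have := (hab z hz).1
      omega
    · intro c _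
      have hinj : Set.InjOn v (↑(s.filter (fun z => a z = c)) : Set GaussianInt) := by
        intro z hz w hw hvw
        rw [mem_coe, mem_filter] at hz hw
        obtain ⟨-, hz1, hz2, hz3⟩ := hab z hz.1
        obtain ⟨-, hw1, hw2, hw3⟩ := hab w hw.1
        have hbb : b z = b w := by
          have h2 : π.norm ^ (a z + b z) = π.norm ^ (a w + b w) := by rw [hz3, hw3]
          have h3 : (π.norm.toNat) ^ (a z + b z) = (π.norm.toNat) ^ (a w + b w) := by
            have : ((π.norm.toNat : ℕ) : ℤ) = π.norm := Int.toNat_of_nonneg (by omega)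
            have h4 : (((π.norm.toNat) ^ (a z + b z) : ℕ) : ℤ)
                = (((π.norm.toNat) ^ (a w + b w) : ℕ) : ℤ) := by
              push_cast
              rw [this, h2]
            exact_mod_cast h4
          have h5 := Nat.pow_right_injective (by omega : 2 ≤ π.norm.toNat) h3
          rw [hz.2, hw.2] at h5
          omega
        rw [hz1, hw1, hz.2, hw.2, hbb, hvw]
      rw [← Finset.card_image_of_injOn hinj]
      apply hB
      intro x hx
      rw [mem_image] at hx
      obtain ⟨z, hz, rfl⟩ := hx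
      rw [mem_filter] at hz
      exact (hab z hz.1).2.2.1
  rw [card_range] at h1
  rw [mul_comm]
  exact h1

/-- Gaussian integers of norm one. -/
theorem card_norm_one (s : Finset GaussianInt) (hs : ∀ z ∈ s, z.norm = 1) : s.card ≤ 4 := by
  have hsub : s ⊆ {⟨1, 0⟩, ⟨-1, 0⟩, ⟨0, 1⟩, ⟨0, -1⟩} := by
    intro z hz
    have h := hs z hz
    rw [Zsqrtd.norm_def] at h
    have h1 : z.re * z.re + z.im * z.im = 1 := by linarith
    have h2 : -1 ≤ z.re := by nlinarith [mul_self_nonneg z.im, mul_self_nonneg (z.re + 1)]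
    have h3 : z.re ≤ 1 := by nlinarith [mul_self_nonneg z.im, mul_self_nonneg (z.re - 1)]
    have h4 : -1 ≤ z.im := by nlinarith [mul_self_nonneg z.re, mul_self_nonneg (z.im + 1)]
    have h5 : z.im ≤ 1 := by nlinarith [mul_self_nonneg z.re, mul_self_nonneg (z.im - 1)]
    obtain ⟨x, y⟩ := z
    simp only at h1 h2 h3 h4 h5
    interval_cases x <;> interval_cases y <;> simp_all
  exact (card_le_card hsub).trans (by
    refine (card_insert_le _ _).trans ?_
    refine Nat.succ_le_succ ((card_insert_le _ _).trans ?_)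
    refine Nat.succ_le_succ ((card_insert_le _ _).trans ?_)
    simp)

/-- a linear function is dominated by an exponential function -/
theorem exists_linear_le_pow (β : ℝ) (hβ : 1 < β) : ∃ K : ℝ, 1 ≤ K ∧ ∀ e : ℕ,
    ((e : ℝ) + 1) ≤ K * β ^ e := by
  refine ⟨max 1 (1 / (β - 1)), le_max_left _ _, ?_⟩
  intro e
  have h1 : 1 + (e : ℝ) * (β - 1) ≤ β ^ e := by
    have := one_add_mul_le_pow (a := β - 1) (by linarith) e
    simpa using this
  have hβ1 : 0 < β - 1 := by linarith
  have h2 : (0 : ℝ) ≤ e := Nat.cast_nonneg e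
  rcases le_total 1 (β - 1) with h | h
  · calc (e : ℝ) + 1 ≤ 1 * (1 + (e : ℝ) * (β - 1)) := by nlinarith
      _ ≤ 1 * β ^ e := by linarith
      _ ≤ max 1 (1 / (β - 1)) * β ^ e :=
          mul_le_mul_of_nonneg_right (le_max_left _ _) (by positivity)
  · calc (e : ℝ) + 1 ≤ (1 / (β - 1)) * (1 + (e : ℝ) * (β - 1)) := by
          rw [mul_add, mul_one]
          have h3 : 1 ≤ 1 / (β - 1) := by
            rw [le_div_iff₀ hβ1]; linarith
          have h4 : 1 / (β - 1) * ((e : ℝ) * (β - 1)) = e := by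
            field_simp
          rw [h4]
          linarith
      _ ≤ (1 / (β - 1)) * β ^ e := mul_le_mul_of_nonneg_left h1 (by positivity)
      _ ≤ max 1 (1 / (β - 1)) * β ^ e :=
          mul_le_mul_of_nonneg_right (le_max_right _ _) (by positivity)

/-- **Divisor bound**: the number of Gaussian integers of norm `m` is at most `C m ^ ε`. -/
theorem card_norm_le (ε : ℝ) (hε : 0 < ε) : ∃ C : ℝ, 1 ≤ C ∧ ∀ (m : ℕ), 0 < m →
    ∀ s : Finset GaussianInt, (∀ z ∈ s, z.norm = (m : ℤ)) → (s.card : ℝ) ≤ C * (m : ℝ) ^ ε := by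
  classical
  obtain ⟨K, hK1, hK⟩ := exists_linear_le_pow ((2 : ℝ) ^ ε) (Real.one_lt_rpow (by norm_num) hε)
  set P : ℕ := ⌈(2 : ℝ) ^ (1 / ε)⌉₊ with hP
  let W : ℕ → Finset ℕ := fun m => (range P).filter (fun q => q.Prime ∧ q ∣ m)
  have hK0 : 0 < K := by linarith
  -- factor bound
  have hfac : ∀ (p : ℕ), p.Prime → ∀ e : ℕ,
      ((e : ℝ) + 1) ≤ K ^ (if p < P then 1 else 0) * ((p : ℝ) ^ ε) ^ e := by
    intro p hp e
    have hp2 : (2 : ℝ) ≤ p := by exact_mod_cast hp.two_le
    split_ifs with h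
    · rw [pow_one]
      refine (hK e).trans ?_
      apply mul_le_mul_of_nonneg_left _ hK0.le
      apply pow_le_pow_left₀ (by positivity)
      exact Real.rpow_le_rpow (by norm_num) hp2 hε.le
    · rw [pow_zero, one_mul]
      have h1 : (2 : ℝ) ^ (1 / ε) ≤ p := by
        have h2 : P ≤ p := by omega
        exact (Nat.le_ceil _).trans (by exact_mod_cast h2)
      have h2 : (2 : ℝ) ≤ (p : ℝ) ^ ε := by
        calc (2 : ℝ) = ((2 : ℝ) ^ (1 / ε)) ^ ε := by
              rw [← Real.rpow_mul (by norm_num), one_div_mul_cancel hε.ne', Real.rpow_one]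
          _ ≤ (p : ℝ) ^ ε := Real.rpow_le_rpow (by positivity) h1 hε.le
      calc (e : ℝ) + 1 ≤ 2 ^ e := by
            exact_mod_cast (Nat.lt_two_pow_self (n := e))
        _ ≤ ((p : ℝ) ^ ε) ^ e := pow_le_pow_left₀ (by norm_num) h2 e
  have main : ∀ (m : ℕ), 0 < m → ∃ B : ℕ, (B : ℝ) ≤ 4 * K ^ (W m).card * (m : ℝ) ^ ε ∧
      ∀ s : Finset GaussianInt, (∀ z ∈ s, z.norm = (m : ℤ)) → s.card ≤ B := by
    intro m
    induction m using Nat.strong_induction_on with
    | _ m ih =>
      intro hm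
      rcases Nat.lt_or_ge 1 m with h1 | h1
      · set p := m.minFac with hp
        have hpp : p.Prime := Nat.minFac_prime (by omega)
        obtain ⟨e, m', hpm, hme⟩ := Nat.exists_eq_pow_mul_and_not_dvd (by omega : m ≠ 0) p
          hpp.one_lt.ne'
        have he : e ≠ 0 := by
          intro h
          rw [h, pow_zero, one_mul] at hme
          exact hpm (hme ▸ Nat.minFac_dvd m)
        have hm' : 0 < m' := by
          rcases Nat.eq_zero_or_pos m' with h | h
          · rw [h] at hpm; exact absurd (dvd_zero p) hpm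
          · exact h
        have hlt : m' < m := by
          rw [hme]
          have : 2 ≤ p ^ e := hpp.two_le.trans (Nat.le_self_pow he p)
          nlinarith
        obtain ⟨B, hB1, hB2⟩ := ih m' hlt hm'
        refine ⟨(e + 1) * B, ?_, fun s hs => ?_⟩
        · have hW : (W m').card + (if p < P then 1 else 0) ≤ (W m).card := by
            split_ifs with h
            · have hnot : p ∉ W m' := by
                simp only [W, mem_filter, not_and]
                intro _ _
                exact hpm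
              rw [← card_insert_of_notMem hnot]
              apply card_le_card
              intro q hq
              rw [mem_insert] at hq
              simp only [W, mem_filter, mem_range] at hq ⊢
              rcases hq with rfl | hq
              · exact ⟨h, hpp, Nat.minFac_dvd m⟩
              · exact ⟨hq.1, hq.2.1, by rw [hme]; exact Dvd.dvd.mul_left hq.2.2 _⟩
            · rw [add_zero]
              apply card_le_card
              intro q hq
              simp only [W, mem_filter, mem_range] at hq ⊢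
              exact ⟨hq.1, hq.2.1, by rw [hme]; exact Dvd.dvd.mul_left hq.2.2 _⟩
          have hme' : (m : ℝ) ^ ε = ((p : ℝ) ^ ε) ^ e * (m' : ℝ) ^ ε := by
            conv_lhs => rw [hme]
            push_cast
            rw [Real.mul_rpow (by positivity) (by positivity), ← Real.rpow_natCast,
              ← Real.rpow_mul (by positivity), mul_comm (e : ℝ) ε, Real.rpow_mul (by positivity),
              Real.rpow_natCast]
          push_cast
          calc ((e : ℝ) + 1) * B
              ≤ (K ^ (if p < P then 1 else 0) * ((p : ℝ) ^ ε) ^ e) *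
                (4 * K ^ (W m').card * (m' : ℝ) ^ ε) :=
                mul_le_mul (hfac p hpp e) hB1 (by positivity) (by positivity)
            _ = 4 * K ^ ((W m').card + (if p < P then 1 else 0)) * (m : ℝ) ^ ε := by
                rw [hme', pow_add]; ring
            _ ≤ 4 * K ^ (W m).card * (m : ℝ) ^ ε := by
                apply mul_le_mul_of_nonneg_right _ (by positivity)
                apply mul_le_mul_of_nonneg_left _ (by norm_num)
                exact pow_le_pow_right₀ hK1 hW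
        · apply card_step p hpp e m' hpm hm' B hB2 s
          intro z hz
          rw [← hme]
          exact hs z hz
      · have hm1 : m = 1 := by omega
        refine ⟨4, ?_, fun s hs => card_norm_one s (fun z hz => by rw [hs z hz, hm1]; rfl)⟩
        rw [hm1]
        simp only [Nat.cast_one, Real.one_rpow, mul_one]
        have : 1 ≤ K ^ (W 1).card := one_le_pow₀ hK1
        push_cast
        linarith
  refine ⟨4 * K ^ P, ?_, ?_⟩
  · have : 1 ≤ K ^ P := one_le_pow₀ hK1
    linarith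
  · intro m hm s hs
    obtain ⟨B, hB1, hB2⟩ := main m hm
    have h1 : (W m).card ≤ P := by
      have := card_le_card (filter_subset (fun q => q.Prime ∧ q ∣ m) (range P))
      rwa [card_range] at this
    calc (s.card : ℝ) ≤ B := by exact_mod_cast hB2 s hs
      _ ≤ 4 * K ^ (W m).card * (m : ℝ) ^ ε := hB1
      _ ≤ 4 * K ^ P * (m : ℝ) ^ ε := by
        apply mul_le_mul_of_nonneg_right _ (by positivity)
        apply mul_le_mul_of_nonneg_left _ (by norm_num)
        exact pow_le_pow_right₀ hK1 h1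

/-- circumradius identity for a lattice triangle -/
theorem circum (p1 p2 q1 q2 s1 s2 m : ℤ) (hp : p1 ^ 2 + p2 ^ 2 = m) (hq : q1 ^ 2 + q2 ^ 2 = m)
    (hs : s1 ^ 2 + s2 ^ 2 = m) :
    4 * ((q1 - p1) * (s2 - p2) - (q2 - p2) * (s1 - p1)) ^ 2 * m =
      ((q1 - p1) ^ 2 + (q2 - p2) ^ 2) * ((s1 - p1) ^ 2 + (s2 - p2) ^ 2) *
        ((s1 - q1) ^ 2 + (s2 - q2) ^ 2) := by
  obtain ⟨u1, rfl⟩ : ∃ u1, q1 = p1 + u1 := ⟨q1 - p1, by ring⟩
  obtain ⟨u2, rfl⟩ : ∃ u2, q2 = p2 + u2 := ⟨q2 - p2, by ring⟩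
  obtain ⟨v1, rfl⟩ : ∃ v1, s1 = p1 + v1 := ⟨s1 - p1, by ring⟩
  obtain ⟨v2, rfl⟩ : ∃ v2, s2 = p2 + v2 := ⟨s2 - p2, by ring⟩
  have e1 : 2 * (p1 * u1 + p2 * u2) + (u1 ^ 2 + u2 ^ 2) = 0 := by linear_combination hq - hp
  have e2 : 2 * (p1 * v1 + p2 * v2) + (v1 ^ 2 + v2 ^ 2) = 0 := by linear_combination hs - hp
  have h1 : 2 * (u1 * v2 - u2 * v1) * p1 =
      (v1 ^ 2 + v2 ^ 2) * u2 - (u1 ^ 2 + u2 ^ 2) * v2 := by
    linear_combination v2 * e1 - u2 * e2
  have h2 : 2 * (u1 * v2 - u2 * v1) * p2 =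
      (u1 ^ 2 + u2 ^ 2) * v1 - (v1 ^ 2 + v2 ^ 2) * u1 := by
    linear_combination u1 * e2 - v1 * e1
  have h3 : 4 * (u1 * v2 - u2 * v1) ^ 2 * m =
      (2 * (u1 * v2 - u2 * v1) * p1) ^ 2 + (2 * (u1 * v2 - u2 * v1) * p2) ^ 2 := by
    rw [← hp]; ring
  rw [h1, h2] at h3
  have e3 : p1 + u1 - p1 = u1 := by ring
  have e4 : p2 + u2 - p2 = u2 := by ring
  have e5 : p1 + v1 - p1 = v1 := by ring
  have e6 : p2 + v2 - p2 = v2 := by ring
  rw [e3, e4, e5, e6, h3]
  ring

theorem sq_pos_of_ne (a b c d : ℤ) (h : (a, b) ≠ (c, d)) : 1 ≤ (c - a) ^ 2 + (d - b) ^ 2 := by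
  by_contra hcon
  have h1 : (c - a) ^ 2 = 0 := by nlinarith [sq_nonneg (c - a), sq_nonneg (d - b)]
  have h2 : (d - b) ^ 2 = 0 := by nlinarith [sq_nonneg (c - a), sq_nonneg (d - b)]
  have h3 : c - a = 0 := by simpa using h1
  have h4 : d - b = 0 := by simpa using h2
  apply h
  rw [show c = a by linarith, show d = b by linarith]

/-- **Lattice points of a circle in a box**: at most `C (1 + r) ^ ε`, uniformly in the radius. -/
theorem circle_box (ε : ℝ) (hε : 0 < ε) : ∃ C : ℝ, 1 ≤ C ∧ ∀ (m : ℤ) (r : ℕ)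
    (s : Finset (ℤ × ℤ)), (∀ z ∈ s, z.1 ^ 2 + z.2 ^ 2 = m) →
    (∀ z ∈ s, ∀ w ∈ s, |z.1 - w.1| ≤ (r : ℤ) ∧ |z.2 - w.2| ≤ (r : ℤ)) →
    (s.card : ℝ) ≤ C * (1 + (r : ℝ)) ^ ε := by
  classical
  obtain ⟨C, hC1, hC⟩ := card_norm_le (ε / 6) (by positivity)
  refine ⟨2 * C * (2 : ℝ) ^ (ε / 6), ?_, ?_⟩
  · have h1 : 1 ≤ (2 : ℝ) ^ (ε / 6) := Real.one_le_rpow (by norm_num) (by positivity)
    nlinarith
  intro m r s hm hr
  have h2 : 1 ≤ (2 : ℝ) ^ (ε / 6) := Real.one_le_rpow (by norm_num) (by positivity)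
  have h3 : 1 ≤ (1 + (r : ℝ)) ^ ε := Real.one_le_rpow (by
    have : (0 : ℝ) ≤ r := Nat.cast_nonneg r
    linarith) hε.le
  have h2C : (2 : ℝ) ≤ 2 * C * (2 : ℝ) ^ (ε / 6) := by nlinarith
  rcases Nat.lt_or_ge 2 s.card with hcard | hcard
  · obtain ⟨P, hP, Q, hQ, S, hS, hPQ, hPS, hQS⟩ := Finset.two_lt_card.1 hcard
    have hid := circum P.1 P.2 Q.1 Q.2 S.1 S.2 m (hm P hP) (hm Q hQ) (hm S hS)
    have hposQP := sq_pos_of_ne P.1 P.2 Q.1 Q.2 hPQ
    have hposSP := sq_pos_of_ne P.1 P.2 S.1 S.2 hPS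
    have hposSQ := sq_pos_of_ne Q.1 Q.2 S.1 S.2 hQS
    set D := (Q.1 - P.1) * (S.2 - P.2) - (Q.2 - P.2) * (S.1 - P.1) with hD
    have hsq : ∀ z ∈ s, ∀ w ∈ s, (z.1 - w.1) ^ 2 + (z.2 - w.2) ^ 2 ≤ 2 * (r : ℤ) ^ 2 := by
      intro z hz w hw
      obtain ⟨h4, h5⟩ := hr z hz w hw
      have h6 : (z.1 - w.1) ^ 2 ≤ (r : ℤ) ^ 2 := by
        rw [← sq_abs]; exact pow_le_pow_left₀ (abs_nonneg _) h4 2
      have h7 : (z.2 - w.2) ^ 2 ≤ (r : ℤ) ^ 2 := by
        rw [← sq_abs]; exact pow_le_pow_left₀ (abs_nonneg _) h5 2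
      linarith
    have hprodpos : 0 < 4 * D ^ 2 * m := by
      rw [hid]; positivity
    have hD0 : D ^ 2 ≥ 1 := by
      have : D ≠ 0 := by
        intro h
        rw [h] at hprodpos
        simp at hprodpos
      have := sq_pos_of_ne_zero this
      omega
    clear_value D
    have hD4 : 0 < 4 * D ^ 2 := by linarith
    have hm0 : 0 < m := pos_of_mul_pos_right hprodpos hD4.le
    have hle : 4 * m ≤ (2 * (r : ℤ) ^ 2) * (2 * (r : ℤ) ^ 2) * (2 * (r : ℤ) ^ 2) := by
      calc 4 * m ≤ 4 * D ^ 2 * m := mul_le_mul_of_nonneg_right (by linarith) hm0.le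
        _ = _ := hid
        _ ≤ _ := by
          apply mul_le_mul _ (hsq S hS Q hQ) (by positivity) (by positivity)
          exact mul_le_mul (hsq Q hQ P hP) (hsq S hS P hP) (by positivity) (by positivity)
    have hle2 : m ≤ 2 * (r : ℤ) ^ 6 := by
      have h8 : (2 * (r : ℤ) ^ 2) * (2 * (r : ℤ) ^ 2) * (2 * (r : ℤ) ^ 2) = 8 * (r : ℤ) ^ 6 := by
        ring
      rw [h8] at hle
      omega
    obtain ⟨M, hM⟩ := Int.eq_ofNat_of_zero_le hm0.le
    have hM0 : 0 < M := by
      rw [hM] at hm0; exact_mod_cast hm0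
    have hMle : (M : ℝ) ≤ 2 * (r : ℝ) ^ 6 := by
      rw [hM] at hle2
      exact_mod_cast hle2
    -- transfer to Gaussian integers
    let φ : ℤ × ℤ → GaussianInt := fun z => ⟨z.1, z.2⟩
    have hφ : Function.Injective φ := by
      intro z w h
      have h1 := congrArg Zsqrtd.re h
      have h2 := congrArg Zsqrtd.im h
      exact Prod.ext h1 h2
    have hcount := hC M hM0 (s.image φ) (by
      intro z hz
      rw [mem_image] at hz
      obtain ⟨w, hw, rfl⟩ := hz
      rw [Zsqrtd.norm_def]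
      have := hm w hw
      rw [hM] at this
      simp only [φ]
      linarith)
    rw [card_image_of_injective _ hφ] at hcount
    calc (s.card : ℝ) ≤ C * (M : ℝ) ^ (ε / 6) := hcount
      _ ≤ C * (2 * (r : ℝ) ^ 6) ^ (ε / 6) := by
          apply mul_le_mul_of_nonneg_left _ (by linarith)
          exact Real.rpow_le_rpow (by positivity) hMle (by positivity)
      _ ≤ C * (2 * (1 + (r : ℝ)) ^ 6) ^ (ε / 6) := by
          apply mul_le_mul_of_nonneg_left _ (by linarith)
          apply Real.rpow_le_rpow (by positivity) _ (by positivity)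
          apply mul_le_mul_of_nonneg_left _ (by norm_num)
          exact pow_le_pow_left₀ (by positivity) (by linarith) 6
      _ = C * ((2 : ℝ) ^ (ε / 6) * (1 + (r : ℝ)) ^ ε) := by
          rw [Real.mul_rpow (by norm_num) (by positivity), ← Real.rpow_natCast (1 + (r : ℝ)) 6,
            ← Real.rpow_mul (by positivity)]
          congr 3
          push_cast
          ring
      _ ≤ 2 * C * (2 : ℝ) ^ (ε / 6) * (1 + (r : ℝ)) ^ ε := by
          have : 0 ≤ C * (2 : ℝ) ^ (ε / 6) * (1 + (r : ℝ)) ^ ε := by positivity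
          nlinarith
  · have : (s.card : ℝ) ≤ 2 := by exact_mod_cast hcard
    nlinarith

end Pool.Agent.TorusTrace
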