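import Mathlib

set_option autoImplicit false

/-!
Trigonometric polynomials on the torus `Fin d → AddCircle T`: Parseval and the box estimate.
-/

namespace Pool.Agent.TorusTrace

open Finset MeasureTheory ComplexConjugate

noncomputable section

variable {T : ℝ} {d : ℕ}

/-- the character `x ↦ exp (2 π i k · x / T)` -/
def chi (k : Fin d → ℤ) (x : Fin d → AddCircle T) : ℂ := ∏ i, fourier (k i) (x i)

theorem chi_add (k l : Fin d → ℤ) (x : Fin d → AddCircle T) :
    chi (k + l) x = chi k x * chi l x := by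
  simp only [chi, Pi.add_apply, fourier_add, ← Finset.prod_mul_distrib]

theorem chi_neg (k : Fin d → ℤ) (x : Fin d → AddCircle T) :
    chi (-k) x = conj (chi k x) := by
  simp only [chi, Pi.neg_apply, fourier_neg, map_prod]

theorem chi_zero (x : Fin d → AddCircle T) : chi 0 x = 1 := by
  simp [chi]

theorem norm_chi (k : Fin d → ℤ) (x : Fin d → AddCircle T) : ‖chi k x‖ = 1 := by
  simp only [chi, fourier_apply, norm_prod, Circle.norm_coe, Finset.prod_const_one]

theorem continuous_chi (k : Fin d → ℤ) : Continuous (chi k : (Fin d → AddCircle T) → ℂ) := by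
  unfold chi
  exact continuous_finsetProd _ (fun i _ => (fourier (k i)).continuous.comp (continuous_apply i))

theorem chi_sub_arg (k : Fin d → ℤ) (x y : Fin d → AddCircle T) :
    chi k (x - y) = chi k x * conj (chi k y) := by
  simp only [chi, map_prod, ← Finset.prod_mul_distrib, Pi.sub_apply]
  apply Finset.prod_congr rfl
  intro i _
  rw [← fourier_neg, fourier_apply, fourier_apply, fourier_apply, ← Circle.coe_mul,
    ← AddCircle.toCircle_add]
  congr 2
  rw [smul_sub, neg_smul, sub_eq_add_neg]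

variable [hT : Fact (0 < T)]

theorem integral_fourier_ne {n : ℤ} (hn : n ≠ 0) :
    ∫ x : AddCircle T, (fourier n x : ℂ) = 0 :=
  integral_eq_zero_of_add_right_eq_neg (μ := volume)
    (fun x => fourier_add_half_inv_index hn hT.out x)

theorem integral_chi (k : Fin d → ℤ) :
    ∫ x : Fin d → AddCircle T, chi k x = if k = 0 then ((T ^ d : ℝ) : ℂ) else 0 := by
  unfold chi
  rw [integral_fintype_prod_volume_eq_prod (f := fun i (x : AddCircle T) => (fourier (k i) x : ℂ))]
  split_ifs with h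
  · have h1 : ∀ i : Fin d, ∫ x : AddCircle T, (fourier (k i) x : ℂ) = (T : ℂ) := by
      intro i
      rw [h]
      simp only [Pi.zero_apply, fourier_zero]
      rw [integral_const]
      simp [Measure.real, AddCircle.measure_univ, hT.out.le]
    simp only [h1]
    simp
  · obtain ⟨i, hi⟩ := Function.ne_iff.mp h
    exact Finset.prod_eq_zero (Finset.mem_univ i) (integral_fourier_ne hi)

theorem integrable_of_cont {f : (Fin d → AddCircle T) → ℂ} (hf : Continuous f) :
    Integrable f := by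
  exact hf.integrable_of_hasCompactSupport (HasCompactSupport.of_compactSpace f)

/-- **Parseval** for trigonometric polynomials. -/
theorem parseval (s : Finset (Fin d → ℤ)) (b : (Fin d → ℤ) → ℂ) :
    ∫ x : Fin d → AddCircle T, ‖∑ k ∈ s, b k * chi k x‖ ^ 2 = T ^ d * ∑ k ∈ s, ‖b k‖ ^ 2 := by
  classical
  have h1 : ∀ x : Fin d → AddCircle T, ((‖∑ k ∈ s, b k * chi k x‖ ^ 2 : ℝ) : ℂ) =
      ∑ k ∈ s, ∑ l ∈ s, (b k * conj (b l)) * chi (k - l) x := by
    intro x
    rw [Complex.ofReal_pow, ← Complex.mul_conj', map_sum, Finset.sum_mul_sum]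
    apply Finset.sum_congr rfl
    intro k _
    apply Finset.sum_congr rfl
    intro l _
    rw [map_mul, sub_eq_add_neg, chi_add, chi_neg]
    ring
  have h2 : ((∫ x : Fin d → AddCircle T, ‖∑ k ∈ s, b k * chi k x‖ ^ 2 : ℝ) : ℂ) =
      ((T ^ d * ∑ k ∈ s, ‖b k‖ ^ 2 : ℝ) : ℂ) := by
    rw [← integral_complex_ofReal]
    simp_rw [h1]
    rw [integral_finsetSum _ (fun k _ => integrable_of_cont (by
      refine continuous_finsetSum _ (fun l _ => ?_)
      exact continuous_const.mul (continuous_chi _)))]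
    have h3 : ∀ k ∈ s, ∫ x : Fin d → AddCircle T, ∑ l ∈ s, (b k * conj (b l)) * chi (k - l) x =
        ((T ^ d * ‖b k‖ ^ 2 : ℝ) : ℂ) := by
      intro k hk
      have hint : ∀ l ∈ s, Integrable (fun x : Fin d → AddCircle T =>
          b k * conj (b l) * chi (k - l) x) := fun l _ =>
        integrable_of_cont (continuous_const.mul (continuous_chi _))
      rw [integral_finsetSum _ hint]
      have h4 : ∀ l ∈ s, ∫ x : Fin d → AddCircle T, (b k * conj (b l)) * chi (k - l) x =
          if l = k then ((T ^ d * ‖b k‖ ^ 2 : ℝ) : ℂ) else 0 := by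
        intro l _
        rw [integral_const_mul, integral_chi]
        by_cases hkl : l = k
        · rw [if_pos hkl, if_pos (by rw [hkl, sub_self]), hkl, Complex.mul_conj']
          push_cast
          ring
        · rw [if_neg hkl, if_neg (fun h => hkl (sub_eq_zero.1 h).symm), mul_zero]
      rw [Finset.sum_congr rfl h4, Finset.sum_ite_eq' s k, if_pos hk]
    rw [Finset.sum_congr rfl h3, ← Complex.ofReal_sum, Finset.mul_sum]
  exact_mod_cast h2

/-- Parseval, in terms of the lower integral. -/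
theorem lparseval (s : Finset (Fin d → ℤ)) (b : (Fin d → ℤ) → ℂ) :
    ∫⁻ x : Fin d → AddCircle T, ‖∑ k ∈ s, b k * chi k x‖ₑ ^ 2 =
      ENNReal.ofReal (T ^ d * ∑ k ∈ s, ‖b k‖ ^ 2) := by
  have hc : Continuous (fun x : Fin d → AddCircle T => ∑ k ∈ s, b k * chi k x) :=
    continuous_finsetSum _ (fun l _ => continuous_const.mul (continuous_chi _))
  rw [← parseval, ofReal_integral_eq_lintegral_ofReal]
  · apply lintegral_congr
    intro x
    rw [ENNReal.ofReal_pow (norm_nonneg _), ofReal_norm]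
  · exact (hc.norm.pow 2).integrable_of_hasCompactSupport (HasCompactSupport.of_compactSpace _)
  · exact Filter.Eventually.of_forall (fun x => by positivity)

/-- lower bound for the exponential sum -/
theorem fourier_sum_lower (M : ℕ) (hM : 1 ≤ M) (t : AddCircle T)
    (h : M = 1 ∨ ‖t‖ ≤ T / (8 * M)) :
    (M : ℝ) / 2 ≤ ‖∑ j ∈ Ico (0 : ℤ) M, (fourier j t : ℂ)‖ := by
  have hT0 : 0 < T := hT.out
  rcases h with h | h
  · subst h
    have : Ico (0 : ℤ) ((1 : ℕ) : ℤ) = {0} := by decide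
    rw [this, sum_singleton, fourier_zero]
    norm_num
  · -- a real representative
    obtain ⟨τ, hτ1, hτ2⟩ : ∃ τ : ℝ, (τ : AddCircle T) = t ∧ |τ| = ‖t‖ := by
      obtain ⟨x, rfl⟩ := QuotientAddGroup.mk_surjective t
      refine ⟨x - round (T⁻¹ * x) * T, ?_, ?_⟩
      · rw [AddCircle.coe_sub]
        have h2 : ((round (T⁻¹ * x) * T : ℝ) : AddCircle T) = 0 := by
          rw [AddCircle.coe_eq_zero_iff]
          exact ⟨round (T⁻¹ * x), by rw [zsmul_eq_mul]⟩
        rw [h2, sub_zero]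
      · exact (AddCircle.norm_eq T).symm
    have hre : ∀ j ∈ Ico (0 : ℤ) M, (1 : ℝ) / 2 ≤ (fourier j t : ℂ).re := by
      intro j hj
      rw [mem_Ico] at hj
      rw [← hτ1, fourier_coe_apply]
      have h3 : (2 * Real.pi * Complex.I * j * τ / T : ℂ) =
          ((2 * Real.pi * j * τ / T : ℝ) : ℂ) * Complex.I := by
        push_cast; ring
      rw [h3, Complex.exp_ofReal_mul_I_re]
      have hMpos : (0 : ℝ) < M := by exact_mod_cast hM
      have hj0 : (0 : ℝ) ≤ j := by exact_mod_cast hj.1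
      have hjM : (j : ℝ) ≤ M := by exact_mod_cast hj.2.le
      have hτ3 : |τ| ≤ T / (8 * M) := by rw [hτ2]; exact h
      have habs : |2 * Real.pi * j * τ / T| ≤ 1 := by
        rw [abs_div, abs_mul, abs_mul, abs_mul, abs_of_pos hT0, abs_of_nonneg hj0,
          abs_of_pos Real.pi_pos, abs_of_pos (by norm_num : (0 : ℝ) < 2), div_le_one hT0]
        have h4 : (j : ℝ) * |τ| ≤ M * (T / (8 * M)) :=
          mul_le_mul hjM hτ3 (abs_nonneg _) hMpos.le
        have h5 : (M : ℝ) * (T / (8 * M)) = T / 8 := by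
          field_simp
        calc 2 * Real.pi * j * |τ| = 2 * Real.pi * (j * |τ|) := by ring
          _ ≤ 2 * 4 * (T / 8) := by
              rw [h5] at h4
              apply mul_le_mul _ h4 (by positivity) (by norm_num)
              linarith [Real.pi_le_four]
          _ = T := by ring
      have h6 := Real.one_sub_sq_div_two_le_cos (x := 2 * Real.pi * j * τ / T)
      have h7 : (2 * Real.pi * j * τ / T) ^ 2 ≤ 1 := by
        rw [← sq_abs]
        exact pow_le_one₀ (abs_nonneg _) habs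
      linarith
    calc (M : ℝ) / 2 = ∑ j ∈ Ico (0 : ℤ) M, (1 : ℝ) / 2 := by
          rw [sum_const, Int.card_Ico]
          simp
          ring
      _ ≤ ∑ j ∈ Ico (0 : ℤ) M, (fourier j t : ℂ).re := Finset.sum_le_sum hre
      _ = (∑ j ∈ Ico (0 : ℤ) M, (fourier j t : ℂ)).re := by rw [Complex.re_sum]
      _ ≤ ‖∑ j ∈ Ico (0 : ℤ) M, (fourier j t : ℂ)‖ := Complex.re_le_norm _

/-- the product of the trigonometric polynomial with a Dirichlet type kernel -/
theorem conv_bound (s : Finset (Fin d → ℤ)) (a : (Fin d → ℤ) → ℂ) (M : Fin d → ℕ)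
    (y : Fin d → AddCircle T) (N : ℝ) (hN : ∀ c : Fin d → ℤ,
      ((s.filter (fun k => ∀ i, c i ≤ k i ∧ k i < c i + M i)).card : ℝ) ≤ N) :
    ∫⁻ x : Fin d → AddCircle T,
      ‖(∑ k ∈ s, a k * chi k x) * ∏ i, ∑ j ∈ Ico (0 : ℤ) (M i), (fourier j (x i - y i) : ℂ)‖ₑ ^ 2
      ≤ ENNReal.ofReal (T ^ d * (N * (∏ i, (M i : ℝ)) * ∑ k ∈ s, ‖a k‖ ^ 2)) := by
  classical
  set J : Finset (Fin d → ℤ) := Fintype.piFinset (fun i => Ico (0 : ℤ) (M i)) with hJ
  set P := s ×ˢ J with hP
  let f : (Fin d → ℤ) × (Fin d → ℤ) → (Fin d → ℤ) := fun z => z.1 + z.2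
  set I := P.image f with hI
  let b : (Fin d → ℤ) → ℂ := fun m => ∑ z ∈ P.filter (fun z => f z = m), a z.1 * conj (chi z.2 y)
  have hN0 : 0 ≤ N := le_trans (Nat.cast_nonneg _) (hN 0)
  have hexp : ∀ x : Fin d → AddCircle T,
      (∑ k ∈ s, a k * chi k x) * ∏ i, ∑ j ∈ Ico (0 : ℤ) (M i), (fourier j (x i - y i) : ℂ) =
      ∑ m ∈ I, b m * chi m x := by
    intro x
    have h1 : ∏ i, ∑ j ∈ Ico (0 : ℤ) (M i), (fourier j (x i - y i) : ℂ) =
        ∑ j ∈ J, chi j x * conj (chi j y) := by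
      rw [Finset.prod_univ_sum]
      apply Finset.sum_congr rfl
      intro j _
      rw [← chi_sub_arg]
      rfl
    rw [h1, Finset.sum_mul_sum, ← Finset.sum_product', ← hP]
    rw [← Finset.sum_fiberwise_of_maps_to (s := P) (t := I) (g := f)
      (fun z hz => mem_image_of_mem f hz)]
    apply Finset.sum_congr rfl
    intro m _
    simp only [b]
    rw [Finset.sum_mul]
    apply Finset.sum_congr rfl
    intro z hz
    rw [mem_filter] at hz
    rw [← hz.2]
    simp only [f]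
    rw [chi_add]
    ring
  simp_rw [hexp]
  rw [lparseval]
  apply ENNReal.ofReal_le_ofReal
  apply mul_le_mul_of_nonneg_left _ (by have := hT.out; positivity)
  -- Cauchy-Schwarz on the fibres
  have hfib : ∀ m ∈ I, ‖b m‖ ^ 2 ≤ N * ∑ z ∈ P.filter (fun z => f z = m), ‖a z.1‖ ^ 2 := by
    intro m _
    have h1 : ‖b m‖ ≤ ∑ z ∈ P.filter (fun z => f z = m), ‖a z.1‖ := by
      refine (norm_sum_le _ _).trans (le_of_eq ?_)
      apply Finset.sum_congr rfl
      intro z _
      rw [norm_mul, RCLike.norm_conj, norm_chi, mul_one]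
    have h2 : ‖b m‖ ^ 2 ≤ ((P.filter (fun z => f z = m)).card : ℝ) *
        ∑ z ∈ P.filter (fun z => f z = m), ‖a z.1‖ ^ 2 :=
      (pow_le_pow_left₀ (norm_nonneg _) h1 2).trans sq_sum_le_card_mul_sum_sq
    refine h2.trans ?_
    apply mul_le_mul_of_nonneg_right _ (Finset.sum_nonneg (fun _ _ => by positivity))
    refine le_trans ?_ (hN (fun i => m i - M i + 1))
    have hinj : Set.InjOn Prod.fst (↑(P.filter (fun z => f z = m)) :
        Set ((Fin d → ℤ) × (Fin d → ℤ))) := by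
      intro z hz w hw hzw
      rw [mem_coe, mem_filter] at hz hw
      apply Prod.ext hzw
      have h3 : z.1 + z.2 = w.1 + w.2 := by
        have := hz.2.trans hw.2.symm
        exact this
      rw [hzw] at h3
      exact add_left_cancel h3
    rw [← card_image_of_injOn hinj]
    exact_mod_cast card_le_card (by
      intro k hk
      rw [mem_image] at hk
      obtain ⟨z, hz, rfl⟩ := hk
      rw [mem_filter] at hz
      have hz1 := mem_product.1 hz.1
      rw [mem_filter]
      refine ⟨hz1.1, fun i => ?_⟩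
      have h4 := Fintype.mem_piFinset.1 hz1.2 i
      rw [mem_Ico] at h4
      have h5 : m i = z.1 i + z.2 i := by rw [← hz.2]; rfl
      rw [h5]
      constructor <;> linarith [h4.1, h4.2])
  calc ∑ m ∈ I, ‖b m‖ ^ 2 ≤ ∑ m ∈ I, N * ∑ z ∈ P.filter (fun z => f z = m), ‖a z.1‖ ^ 2 :=
        Finset.sum_le_sum hfib
    _ = N * ∑ z ∈ P, ‖a z.1‖ ^ 2 := by
        rw [← Finset.mul_sum, Finset.sum_fiberwise_of_maps_to
          (fun z hz => mem_image_of_mem f hz)]
    _ = N * ((∏ i, (M i : ℝ)) * ∑ k ∈ s, ‖a k‖ ^ 2) := by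
        congr 1
        rw [hP, Finset.sum_product]
        simp only [sum_const, nsmul_eq_mul]
        rw [← Finset.mul_sum]
        congr 1
        rw [hJ, Fintype.card_piFinset]
        push_cast
        apply Finset.prod_congr rfl
        intro i _
        rw [Int.card_Ico]
        simp
    _ = _ := by ring

/-- **Box estimate**: a trigonometric polynomial with few frequencies in every box of side
lengths `M i` has little mass on boxes of half side lengths `T / (8 * M i)`. -/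
theorem box_mass (s : Finset (Fin d → ℤ)) (a : (Fin d → ℤ) → ℂ) (M : Fin d → ℕ)
    (hM : ∀ i, 1 ≤ M i)
    (y : Fin d → AddCircle T) (N : ℝ) (hN : ∀ c : Fin d → ℤ,
      ((s.filter (fun k => ∀ i, c i ≤ k i ∧ k i < c i + M i)).card : ℝ) ≤ N)
    (Q : Set (Fin d → AddCircle T))
    (hQ : ∀ x ∈ Q, ∀ i, M i = 1 ∨ ‖x i - y i‖ ≤ T / (8 * M i)) :
    ∫⁻ x in Q, ‖∑ k ∈ s, a k * chi k x‖ₑ ^ 2 ≤
      ENNReal.ofReal (4 ^ d * N / ∏ i, (M i : ℝ)) *
        ∫⁻ x : Fin d → AddCircle T, ‖∑ k ∈ s, a k * chi k x‖ₑ ^ 2 := by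
  have hPpos : 0 < ∏ i, (M i : ℝ) := Finset.prod_pos (fun i _ => by
    have := hM i
    exact_mod_cast this)
  have hN0 : 0 ≤ N := le_trans (Nat.cast_nonneg _) (hN 0)
  set K : ℝ := 4 ^ d / (∏ i, (M i : ℝ)) ^ 2 with hK
  have hK0 : 0 ≤ K := by positivity
  have hpt : ∀ x ∈ Q, ‖∑ k ∈ s, a k * chi k x‖ₑ ^ 2 ≤ ENNReal.ofReal K *
      ‖(∑ k ∈ s, a k * chi k x) *
        ∏ i, ∑ j ∈ Ico (0 : ℤ) (M i), (fourier j (x i - y i) : ℂ)‖ₑ ^ 2 := by
    intro x hx
    have h1 : (∏ i, (M i : ℝ)) / 2 ^ d ≤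
        ‖∏ i, ∑ j ∈ Ico (0 : ℤ) (M i), (fourier j (x i - y i) : ℂ)‖ := by
      rw [norm_prod]
      calc (∏ i, (M i : ℝ)) / 2 ^ d = ∏ i, ((M i : ℝ) / 2) := by
            rw [Finset.prod_div_distrib]; simp
        _ ≤ _ := Finset.prod_le_prod (fun i _ => by positivity)
            (fun i _ => fourier_sum_lower (M i) (hM i) _ (hQ x hx i))
    have h2 : 1 ≤ K *
        ‖∏ i, ∑ j ∈ Ico (0 : ℤ) (M i), (fourier j (x i - y i) : ℂ)‖ ^ 2 := by
      calc (1 : ℝ) = K * ((∏ i, (M i : ℝ)) / 2 ^ d) ^ 2 := by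
            rw [hK, div_pow, ← pow_mul, mul_comm d 2, pow_mul]
            norm_num
            field_simp
        _ ≤ _ := mul_le_mul_of_nonneg_left (pow_le_pow_left₀ (by positivity) h1 2) hK0
    have h3 : ‖∑ k ∈ s, a k * chi k x‖ ^ 2 ≤ K * ‖(∑ k ∈ s, a k * chi k x) *
        ∏ i, ∑ j ∈ Ico (0 : ℤ) (M i), (fourier j (x i - y i) : ℂ)‖ ^ 2 := by
      rw [norm_mul, mul_pow]
      calc ‖∑ k ∈ s, a k * chi k x‖ ^ 2 = ‖∑ k ∈ s, a k * chi k x‖ ^ 2 * 1 := by ring
        _ ≤ ‖∑ k ∈ s, a k * chi k x‖ ^ 2 * (K *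
          ‖∏ i, ∑ j ∈ Ico (0 : ℤ) (M i), (fourier j (x i - y i) : ℂ)‖ ^ 2) :=
            mul_le_mul_of_nonneg_left h2 (by positivity)
        _ = _ := by ring
    have h4 : ∀ z : ℂ, ‖z‖ₑ ^ 2 = ENNReal.ofReal (‖z‖ ^ 2) := by
      intro z
      rw [ENNReal.ofReal_pow (norm_nonneg _), ofReal_norm]
    rw [h4, h4, ← ENNReal.ofReal_mul hK0]
    exact ENNReal.ofReal_le_ofReal h3
  have hmeas : Measurable (fun x : Fin d → AddCircle T => ENNReal.ofReal K *
      ‖(∑ k ∈ s, a k * chi k x) *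
        ∏ i, ∑ j ∈ Ico (0 : ℤ) (M i), (fourier j (x i - y i) : ℂ)‖ₑ ^ 2) := by
    have hc : Continuous (fun x : Fin d → AddCircle T => (∑ k ∈ s, a k * chi k x) *
        ∏ i, ∑ j ∈ Ico (0 : ℤ) (M i), (fourier j (x i - y i) : ℂ)) := by
      apply Continuous.mul
      · exact continuous_finsetSum _ (fun l _ => continuous_const.mul (continuous_chi _))
      · apply continuous_finsetProd
        intro i _
        apply continuous_finsetSum
        intro j _
        exact (fourier j).continuous.comp ((continuous_apply i).sub continuous_const)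
    exact (hc.measurable.enorm.pow_const 2).const_mul _
  calc ∫⁻ x in Q, ‖∑ k ∈ s, a k * chi k x‖ₑ ^ 2
      ≤ ∫⁻ x in Q, ENNReal.ofReal K * ‖(∑ k ∈ s, a k * chi k x) *
        ∏ i, ∑ j ∈ Ico (0 : ℤ) (M i), (fourier j (x i - y i) : ℂ)‖ₑ ^ 2 :=
        setLIntegral_mono hmeas hpt
    _ ≤ ∫⁻ x : Fin d → AddCircle T, ENNReal.ofReal K * ‖(∑ k ∈ s, a k * chi k x) *
        ∏ i, ∑ j ∈ Ico (0 : ℤ) (M i), (fourier j (x i - y i) : ℂ)‖ₑ ^ 2 :=
        setLIntegral_le_lintegral _ _
    _ = ENNReal.ofReal K * ∫⁻ x : Fin d → AddCircle T, ‖(∑ k ∈ s, a k * chi k x) *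
        ∏ i, ∑ j ∈ Ico (0 : ℤ) (M i), (fourier j (x i - y i) : ℂ)‖ₑ ^ 2 :=
        lintegral_const_mul' _ _ ENNReal.ofReal_ne_top
    _ ≤ ENNReal.ofReal K *
        ENNReal.ofReal (T ^ d * (N * (∏ i, (M i : ℝ)) * ∑ k ∈ s, ‖a k‖ ^ 2)) :=
        mul_le_mul_right (conv_bound s a M y N hN) _
    _ = ENNReal.ofReal (4 ^ d * N / ∏ i, (M i : ℝ)) *
        ∫⁻ x : Fin d → AddCircle T, ‖∑ k ∈ s, a k * chi k x‖ₑ ^ 2 := by
        rw [lparseval, ← ENNReal.ofReal_mul hK0, ← ENNReal.ofReal_mul (by positivity)]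
        congr 1
        rw [hK]
        field_simp

end

end Pool.Agent.TorusTrace
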