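import Pool.Agent.TorusTrace.Slice
import Pool.Agent.TorusTrace.Parseval

set_option autoImplicit false

/-!
The trace inequality for coordinatewise decreasing densities.
-/

namespace Pool.Agent.TorusTrace

open Finset MeasureTheory ComplexConjugate
open scoped ENNReal NNReal

noncomputable section

variable {T : ℝ} {d : ℕ} [hT : Fact (0 < T)]

/-- sum of a geometric series over `ℕ ^ d` -/
theorem tsum_pi_geometric (r : ℝ≥0∞) (d : ℕ) :
    ∑' m : Fin d → ℕ, r ^ (∑ i, m i) = (∑' n : ℕ, r ^ n) ^ d := by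
  induction d with
  | zero =>
    rw [tsum_eq_single (fun i : Fin 0 => (0 : ℕ))]
    · simp
    · intro b hb
      exact absurd (Subsingleton.elim _ _) hb
  | succ d ih =>
    rw [← (Fin.consEquiv (fun _ : Fin (d + 1) => ℕ)).tsum_eq]
    have h1 : ∀ c : ℕ × (Fin d → ℕ),
        r ^ (∑ i, (Fin.consEquiv (fun _ : Fin (d + 1) => ℕ)) c i) =
        r ^ c.1 * r ^ (∑ i, c.2 i) := by
      intro c
      rw [← pow_add, Fin.sum_univ_succ]
      rfl
    simp_rw [h1]
    rw [ENNReal.tsum_prod (f := fun (a : ℕ) (b : Fin d → ℕ) => r ^ a * r ^ (∑ i, b i))]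
    simp_rw [ENNReal.tsum_mul_left, ih]
    rw [ENNReal.tsum_mul_right, pow_succ, mul_comm]

/-- **Box estimate for eigenfunctions**: the mass of an eigenfunction on an axis parallel
dyadic box, for any two of the coordinates. -/
theorem eigen_box_pair (ε : ℝ) (hε : 0 < ε) (hε1 : ε < 1) : ∃ K : ℝ, 0 < K ∧
    ∀ (n : ℤ) (s : Finset (Fin d → ℤ)) (a : (Fin d → ℤ) → ℂ), (∀ k ∈ s, ∑ i, k i ^ 2 = n) →
    ∀ (i₀ j₀ : Fin d), i₀ ≠ j₀ →
    ∀ (y : Fin d → AddCircle T) (m : Fin d → ℕ) (Q : Set (Fin d → AddCircle T)),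
    (∀ x ∈ Q, ∀ i, ‖x i - y i‖ ≤ T / 2 ^ (m i + 1)) →
    ∫⁻ x in Q, ‖∑ k ∈ s, a k * chi k x‖ₑ ^ 2 ≤
      ENNReal.ofReal (K * (2 : ℝ) ^ (-((1 - ε) * ((m i₀ : ℝ) + m j₀)))) *
        ∫⁻ x : Fin d → AddCircle T, ‖∑ k ∈ s, a k * chi k x‖ₑ ^ 2 := by
  classical
  obtain ⟨C, hC1, hC⟩ := sphere_box ε hε
  refine ⟨4 ^ d * C * 2 ^ ε * 16, by positivity, ?_⟩
  intro n s a hs i₀ j₀ hij y m Q hQ
  let M : Fin d → ℕ := fun i => 2 ^ (m i - 2)
  have hM1 : ∀ i, 1 ≤ M i := fun i => Nat.one_le_two_pow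
  set N : ℝ := (∏ i ∈ univ.filter (fun i => i ≠ i₀ ∧ i ≠ j₀), (M i : ℝ)) *
      (C * (1 + (max (M i₀) (M j₀) : ℕ) : ℝ) ^ ε) with hN
  have hcount : ∀ c : Fin d → ℤ,
      ((s.filter (fun k => ∀ i, c i ≤ k i ∧ k i < c i + M i)).card : ℝ) ≤ N := by
    intro c
    apply hC d i₀ j₀ hij n M c _ hM1
    · intro k hk
      exact hs k (mem_filter.1 hk).1
    · intro k hk
      exact (mem_filter.1 hk).2
  have hT0 : 0 < T := hT.out
  have hmass := box_mass s a M hM1 y N hcount Q (by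
    intro x hx i
    by_cases hmi : m i ≤ 2
    · left
      simp only [M]
      rw [show m i - 2 = 0 by omega, pow_zero]
    · right
      refine (hQ x hx i).trans (le_of_eq ?_)
      simp only [M]
      obtain ⟨q, hq⟩ := Nat.exists_eq_add_of_le (by omega : 2 ≤ m i)
      rw [hq, show 2 + q - 2 = q by omega]
      push_cast
      rw [show 2 + q + 1 = q + 3 by omega, pow_add]
      norm_num
      ring)
  refine hmass.trans ?_
  apply mul_le_mul_left
  apply ENNReal.ofReal_le_ofReal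
  -- the numerical inequality
  have hsplit : (∏ i, (M i : ℝ)) = (∏ i ∈ univ.filter (fun i => i ≠ i₀ ∧ i ≠ j₀), (M i : ℝ)) *
      ((M i₀ : ℝ) * M j₀) := by
    rw [← Finset.prod_mul_prod_compl (univ.filter (fun i => i ≠ i₀ ∧ i ≠ j₀))]
    congr 1
    have hcompl : (univ.filter (fun i => i ≠ i₀ ∧ i ≠ j₀))ᶜ = {i₀, j₀} := by
      ext i
      simp only [mem_compl, mem_filter, mem_univ, true_and, mem_insert, mem_singleton,
        not_and_or, not_not]
    rw [hcompl, Finset.prod_pair hij]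
  have hPpos : 0 < ∏ i ∈ univ.filter (fun i => i ≠ i₀ ∧ i ≠ j₀), (M i : ℝ) :=
    Finset.prod_pos (fun i _ => by
      have := hM1 i
      exact_mod_cast this)
  have hMi : (1 : ℝ) ≤ M i₀ := by exact_mod_cast hM1 i₀
  have hMj : (1 : ℝ) ≤ M j₀ := by exact_mod_cast hM1 j₀
  set A : ℝ := (M i₀ : ℝ) * M j₀ with hA
  have hA1 : 1 ≤ A := by nlinarith
  have hmax : (1 + (max (M i₀) (M j₀) : ℕ) : ℝ) ≤ 2 * A := by
    have : ((max (M i₀) (M j₀) : ℕ) : ℝ) ≤ A := by
      push_cast
      exact max_le (by nlinarith) (by nlinarith)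
    linarith
  have hlow : (2 : ℝ) ^ ((m i₀ : ℝ) + m j₀) ≤ 16 * A := by
    have h1 : ∀ i, (2 : ℝ) ^ (m i) ≤ 4 * M i := by
      intro i
      simp only [M]
      push_cast
      calc (2 : ℝ) ^ (m i) ≤ 2 ^ (2 + (m i - 2)) :=
            pow_le_pow_right₀ (by norm_num) (by omega)
        _ = 4 * 2 ^ (m i - 2) := by rw [pow_add]; norm_num
    rw [Real.rpow_add (by norm_num), Real.rpow_natCast, Real.rpow_natCast]
    calc (2 : ℝ) ^ (m i₀) * 2 ^ (m j₀) ≤ (4 * M i₀) * (4 * M j₀) :=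
          mul_le_mul (h1 i₀) (h1 j₀) (by positivity) (by positivity)
      _ = 16 * A := by rw [hA]; ring
  have h1ε : 0 < 1 - ε := by linarith
  calc 4 ^ d * N / ∏ i, (M i : ℝ)
      = 4 ^ d * C * ((1 + (max (M i₀) (M j₀) : ℕ) : ℝ) ^ ε / A) := by
        rw [hN, hsplit]
        field_simp
    _ ≤ 4 ^ d * C * ((2 * A) ^ ε / A) := by
        apply mul_le_mul_of_nonneg_left _ (by positivity)
        apply div_le_div_of_nonneg_right _ (by positivity)
        exact Real.rpow_le_rpow (by positivity) hmax hε.le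
    _ = 4 ^ d * C * 2 ^ ε * A ^ (-(1 - ε)) := by
        rw [Real.mul_rpow (by norm_num) (by positivity)]
        have : A ^ (-(1 - ε)) = A ^ ε / A := by
          rw [show -(1 - ε) = ε - 1 by ring, Real.rpow_sub_one (by positivity)]
        rw [this]
        ring
    _ ≤ 4 ^ d * C * 2 ^ ε * ((2 : ℝ) ^ ((m i₀ : ℝ) + m j₀) / 16) ^ (-(1 - ε)) := by
        apply mul_le_mul_of_nonneg_left _ (by positivity)
        apply Real.rpow_le_rpow_of_nonpos (by positivity) _ (by linarith)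
        rw [div_le_iff₀ (by norm_num)]
        linarith
    _ ≤ 4 ^ d * C * 2 ^ ε * (16 * (2 : ℝ) ^ (-((1 - ε) * ((m i₀ : ℝ) + m j₀)))) := by
        apply mul_le_mul_of_nonneg_left _ (by positivity)
        rw [Real.div_rpow (by positivity) (by norm_num), ← Real.rpow_mul (by norm_num),
          Real.rpow_neg (by norm_num : (0 : ℝ) ≤ 16), div_inv_eq_mul, mul_comm]
        apply mul_le_mul _ _ (by positivity) (by norm_num)
        · calc (16 : ℝ) ^ (1 - ε) ≤ 16 ^ (1 : ℝ) :=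
                Real.rpow_le_rpow_of_exponent_le (by norm_num) (by linarith)
            _ = 16 := Real.rpow_one _
        · apply Real.rpow_le_rpow_of_exponent_le (by norm_num)
          linarith
    _ = _ := by ring

/-- The exponent of the box estimate when only the coordinates off `J` are small. -/
theorem eigen_box (hd : 2 ≤ d) (J : Finset (Fin d)) (ε : ℝ) (hε : 0 < ε) (hε1 : ε < 1) :
    ∃ K : ℝ, 0 < K ∧
    ∀ (n : ℤ) (s : Finset (Fin d → ℤ)) (a : (Fin d → ℤ) → ℂ), (∀ k ∈ s, ∑ i, k i ^ 2 = n) →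
    ∀ (y : Fin d → AddCircle T) (m : {i // i ∉ J} → ℕ) (Q : Set (Fin d → AddCircle T)),
    (∀ x ∈ Q, ∀ i : {i // i ∉ J}, ‖x i - y i‖ ≤ T / 2 ^ (m i + 1)) →
    ∫⁻ x in Q, ‖∑ k ∈ s, a k * chi k x‖ₑ ^ 2 ≤
      ENNReal.ofReal (K * (2 : ℝ) ^ (-((1 - ε) * (min 1 (2 / ((d : ℝ) - J.card))
        * ∑ i, (m i : ℝ))))) *
        ∫⁻ x : Fin d → AddCircle T, ‖∑ k ∈ s, a k * chi k x‖ₑ ^ 2 := by
  classical
  obtain ⟨K, hK0, hK⟩ := eigen_box_pair (T := T) (d := d) ε hε hε1
  refine ⟨K, hK0, ?_⟩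
  intro n s a hs y m Q hQ
  have hT0 : 0 < T := hT.out
  let M : Fin d → ℕ := fun i => if h : i ∈ J then 0 else m ⟨i, h⟩
  have hMoff : ∀ i : {i // i ∉ J}, M i = m i := by
    intro i
    simp only [M, dif_neg i.2]
  -- the two largest exponents
  have hne : (univ : Finset (Fin d)).Nonempty := ⟨⟨0, by omega⟩, mem_univ _⟩
  obtain ⟨i₀, -, hi₀⟩ := Finset.exists_max_image univ M hne
  have hne2 : (univ.erase i₀ : Finset (Fin d)).Nonempty := by
    rw [← Finset.card_pos, card_erase_of_mem (mem_univ _), card_univ, Fintype.card_fin]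
    omega
  obtain ⟨j₀, hj₀, hj₀max⟩ := Finset.exists_max_image (univ.erase i₀) M hne2
  have hij : i₀ ≠ j₀ := (ne_of_mem_erase hj₀).symm
  refine (hK n s a hs i₀ j₀ hij y M Q (by
    intro x hx i
    by_cases hi : i ∈ J
    · simp only [M, dif_pos hi]
      have := AddCircle.norm_le_half_period T (x := x i - y i) hT0.ne'
      rw [abs_of_pos hT0] at this
      simpa using this
    · simp only [M, dif_neg hi]
      exact hQ x hx ⟨i, hi⟩)).trans ?_
  apply mul_le_mul_left
  apply ENNReal.ofReal_le_ofReal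
  apply mul_le_mul_of_nonneg_left _ hK0.le
  apply Real.rpow_le_rpow_of_exponent_le (by norm_num)
  apply neg_le_neg
  apply mul_le_mul_of_nonneg_left _ (by linarith)
  -- comparison of the sums
  have hcardJ : J.card ≤ d := by
    have := card_le_univ J
    rwa [Fintype.card_fin] at this
  have hji : (M j₀ : ℝ) ≤ M i₀ := by exact_mod_cast hi₀ j₀ (mem_univ _)
  have hj0 : (0 : ℝ) ≤ M j₀ := Nat.cast_nonneg _
  have hi0 : (0 : ℝ) ≤ M i₀ := Nat.cast_nonneg _
  rcases Nat.eq_zero_or_pos (d - J.card) with hD | hD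
  · -- no coordinate off J
    have hempty : IsEmpty {i // i ∉ J} := by
      have hJu : J = univ := by
        apply Finset.eq_univ_of_card
        rw [Fintype.card_fin]; omega
      have hall : ∀ i : Fin d, i ∈ J := fun i => by rw [hJu]; exact mem_univ i
      exact ⟨fun i => i.2 (hall i)⟩
    rw [Finset.univ_eq_empty, Finset.sum_empty, mul_zero]
    linarith
  · have hDr : (1 : ℝ) ≤ (d : ℝ) - J.card := by
      have : ((d - J.card : ℕ) : ℝ) = (d : ℝ) - J.card := Nat.cast_sub hcardJ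
      rw [← this]
      exact_mod_cast hD
    have hsum : ∑ i, (m i : ℝ) ≤ (M i₀ : ℝ) + ((d : ℝ) - J.card - 1) * M j₀ := by
      have h1 : ∑ i, (m i : ℝ) = ∑ i ∈ Jᶜ, (M i : ℝ) := by
        calc ∑ i, (m i : ℝ) = ∑ i : {i // i ∉ J}, (M i : ℝ) :=
              Finset.sum_congr rfl (fun i _ => by rw [hMoff])
          _ = _ := by
              rw [← Finset.sum_subtype Jᶜ (p := fun i => i ∉ J) (fun i => mem_compl)
                (fun i => (M i : ℝ))]
      have hcc : ((Jᶜ : Finset (Fin d)).card : ℝ) = (d : ℝ) - J.card := by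
        rw [card_compl, Fintype.card_fin, Nat.cast_sub hcardJ]
      rw [h1]
      by_cases hi : i₀ ∈ (Jᶜ : Finset (Fin d))
      · rw [← Finset.add_sum_erase _ _ hi]
        apply add_le_add_right
        have h2 := Finset.sum_le_card_nsmul (Jᶜ.erase i₀) (fun i => (M i : ℝ)) (M j₀ : ℝ) (by
          intro i hi2
          exact_mod_cast hj₀max i (mem_erase.2 ⟨ne_of_mem_erase hi2, mem_univ _⟩))
        rw [nsmul_eq_mul, card_erase_of_mem hi, Nat.cast_sub (card_pos.2 ⟨i₀, hi⟩), hcc] at h2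
        simpa using h2
      · have h2 := Finset.sum_le_card_nsmul (Jᶜ) (fun i => (M i : ℝ)) (M j₀ : ℝ) (by
          intro i hi2
          have : i ≠ i₀ := fun h => hi (h ▸ hi2)
          exact_mod_cast hj₀max i (mem_erase.2 ⟨this, mem_univ _⟩))
        rw [nsmul_eq_mul, hcc] at h2
        linarith
    have hS0 : 0 ≤ ∑ i, (m i : ℝ) := Finset.sum_nonneg (fun _ _ => Nat.cast_nonneg _)
    rcases le_total ((d : ℝ) - J.card) 2 with h2 | h2
    · calc min 1 (2 / ((d : ℝ) - J.card)) * ∑ i, (m i : ℝ) ≤ 1 * ∑ i, (m i : ℝ) :=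
            mul_le_mul_of_nonneg_right (min_le_left _ _) hS0
        _ ≤ _ := by nlinarith
    · calc min 1 (2 / ((d : ℝ) - J.card)) * ∑ i, (m i : ℝ)
          ≤ (2 / ((d : ℝ) - J.card)) * ∑ i, (m i : ℝ) :=
            mul_le_mul_of_nonneg_right (min_le_right _ _) hS0
        _ ≤ (2 / ((d : ℝ) - J.card)) * ((((d : ℝ) - J.card) / 2) * ((M i₀ : ℝ) + M j₀)) := by
            apply mul_le_mul_of_nonneg_left _ (by positivity)
            nlinarith
        _ = _ := by field_simp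

theorem volume_singleton (x : AddCircle T) : volume ({x} : Set (AddCircle T)) = 0 := by
  have h1 : ∀ ε : ℝ, 0 < ε → volume ({x} : Set (AddCircle T)) ≤ ENNReal.ofReal (2 * ε) := by
    intro ε hε
    calc volume ({x} : Set (AddCircle T)) ≤ volume (Metric.closedBall x ε) :=
          measure_mono (by
            rw [Set.singleton_subset_iff]
            exact Metric.mem_closedBall_self hε.le)
      _ = ENNReal.ofReal (min T (2 * ε)) := AddCircle.volume_closedBall T ε
      _ ≤ _ := ENNReal.ofReal_le_ofReal (min_le_right _ _)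
  by_contra hne
  have hpos : 0 < volume ({x} : Set (AddCircle T)) := pos_iff_ne_zero.2 hne
  obtain ⟨q, hq0, hq⟩ := ENNReal.lt_iff_exists_real_btwn.1 hpos
  obtain ⟨hq1, hq2⟩ := hq
  have hqpos : 0 < q := by
    by_contra hcon
    rw [ENNReal.ofReal_of_nonpos (by linarith)] at hq1
    exact lt_irrefl _ hq1
  have := h1 (q / 2) (by positivity)
  rw [show 2 * (q / 2) = q by ring] at this
  exact absurd (lt_of_lt_of_le hq2 this) (lt_irrefl _)

theorem ae_ne (y : Fin d → AddCircle T) :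
    ∀ᵐ x : Fin d → AddCircle T, ∀ i, x i ≠ y i := by
  have : NullSingletonClass (volume : Measure (AddCircle T)) := ⟨volume_singleton⟩
  rw [ae_all_iff]
  intro i
  rw [ae_iff]
  simp only [not_not]
  exact Measure.pi_hyperplane (fun _ => (volume : Measure (AddCircle T))) i (y i)

/-- every positive number at most `T / 2` lies in a dyadic shell -/
theorem exists_shell (t : ℝ) (h0 : 0 < t) (h1 : t ≤ T / 2) :
    ∃ m : ℕ, T / 2 ^ (m + 2) < t ∧ t ≤ T / 2 ^ (m + 1) := by
  classical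
  have hT0 : 0 < T := hT.out
  have hex : ∃ m : ℕ, T / 2 ^ (m + 2) < t := by
    obtain ⟨m, hm⟩ := exists_nat_gt (T / t)
    refine ⟨m, ?_⟩
    rw [div_lt_iff₀ (by positivity)]
    rw [div_lt_iff₀ h0] at hm
    have h2 : (m : ℝ) < 2 ^ m := by exact_mod_cast Nat.lt_two_pow_self
    have h3 : (2 : ℝ) ^ m ≤ 2 ^ (m + 2) := pow_le_pow_right₀ (by norm_num) (by omega)
    nlinarith
  refine ⟨Nat.find hex, Nat.find_spec hex, ?_⟩
  rcases Nat.eq_zero_or_pos (Nat.find hex) with h | h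
  · rw [h]
    simpa using h1
  · have h4 := Nat.find_min hex (m := Nat.find hex - 1) (by omega)
    rw [not_lt] at h4
    rw [show Nat.find hex - 1 + 2 = Nat.find hex + 1 by omega] at h4
    exact h4

end

end Pool.Agent.TorusTrace
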