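import Pool.Agent.TorusTrace.Parseval
import Pool.Agent.TorusTrace.GaussCount

set_option autoImplicit false
set_option linter.unusedSectionVars false
set_option linter.unusedVariables false

/-!
Densities depending on one or two coordinates only (Zygmund's argument).
-/

namespace Pool.Agent.TorusTrace

open Finset MeasureTheory ComplexConjugate
open scoped ENNReal NNReal

noncomputable section

variable {T : ℝ} {d : ℕ}

theorem chi_add_arg (k : Fin d → ℤ) (x y : Fin d → AddCircle T) :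
    chi k (x + y) = chi k x * chi k y := by
  simp only [chi, ← Finset.prod_mul_distrib, Pi.add_apply]
  apply Finset.prod_congr rfl
  intro i _
  rw [fourier_apply, fourier_apply, fourier_apply, ← Circle.coe_mul,
    ← AddCircle.toCircle_add, smul_add]

variable [hT : Fact (0 < T)]

/-- the character takes the value `-1` at a suitable point of the `i`-th axis -/
theorem chi_single (k : Fin d → ℤ) (i : Fin d) (hi : k i ≠ 0) :
    chi k (Pi.single i ((T / 2 / (k i) : ℝ) : AddCircle T)) = -1 := by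
  classical
  unfold chi
  rw [Finset.prod_eq_single i]
  · rw [Pi.single_eq_same]
    have := fourier_add_half_inv_index (T := T) hi hT.out 0
    rw [zero_add, fourier_eval_zero] at this
    exact this
  · intro j _ hj
    rw [Pi.single_eq_of_ne hj, fourier_eval_zero]
  · intro h
    exact absurd (mem_univ i) h

/-- integrals of characters against functions of few coordinates -/
theorem integral_chi_mul (J : Finset (Fin d)) (g : (Fin d → AddCircle T) → ℂ)
    (hg : DependsOn g (J : Set (Fin d))) (k : Fin d → ℤ) (i : Fin d) (hiJ : i ∉ J)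
    (hi : k i ≠ 0) : ∫ x, chi k x * g x = 0 := by
  classical
  apply integral_eq_zero_of_add_right_eq_neg (μ := volume)
    (g := (Pi.single i ((T / 2 / (k i) : ℝ) : AddCircle T) : Fin d → AddCircle T))
  intro x
  rw [chi_add_arg, chi_single k i hi]
  have h1 : g (x + Pi.single i ((T / 2 / (k i) : ℝ) : AddCircle T)) = g x := by
    apply hg
    intro j hj
    rw [Pi.add_apply, Pi.single_eq_of_ne, add_zero]
    rintro rfl
    exact hiJ hj
  rw [h1]
  ring

/-- forget the coordinates in `J` -/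
def forget (J : Finset (Fin d)) (k : Fin d → ℤ) : Fin d → ℤ := fun i => if i ∈ J then 0 else k i

theorem normSq_expand (s : Finset (Fin d → ℤ)) (a : (Fin d → ℤ) → ℂ)
    (x : Fin d → AddCircle T) : ((‖∑ k ∈ s, a k * chi k x‖ ^ 2 : ℝ) : ℂ) =
      ∑ k ∈ s, ∑ l ∈ s, (a k * conj (a l)) * chi (k - l) x := by
  rw [Complex.ofReal_pow, ← Complex.mul_conj', map_sum, Finset.sum_mul_sum]
  apply Finset.sum_congr rfl
  intro k _
  apply Finset.sum_congr rfl
  intro l _
  rw [map_mul, sub_eq_add_neg, chi_add, chi_neg]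
  ring

/-- expansion of the quadratic form -/
theorem integral_expand (g : (Fin d → AddCircle T) → ℝ) (hg : Integrable g)
    (s : Finset (Fin d → ℤ)) (a : (Fin d → ℤ) → ℂ) :
    ((∫ x, ‖∑ k ∈ s, a k * chi k x‖ ^ 2 * g x : ℝ) : ℂ) =
      ∑ k ∈ s, ∑ l ∈ s, (a k * conj (a l)) * ∫ x, chi (k - l) x * (g x : ℂ) := by
  have hint : ∀ k : Fin d → ℤ, Integrable (fun x : Fin d → AddCircle T =>
      chi k x * (g x : ℂ)) := by
    intro k
    exact Integrable.bdd_mul (c := 1) hg.ofReal (continuous_chi k).aestronglyMeasurable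
      (Filter.Eventually.of_forall (fun x => (norm_chi k x).le))
  rw [← integral_complex_ofReal]
  have h1 : ∀ x : Fin d → AddCircle T, ((‖∑ k ∈ s, a k * chi k x‖ ^ 2 * g x : ℝ) : ℂ) =
      ∑ k ∈ s, ∑ l ∈ s, (a k * conj (a l)) * (chi (k - l) x * (g x : ℂ)) := by
    intro x
    rw [Complex.ofReal_mul, normSq_expand, Finset.sum_mul]
    apply Finset.sum_congr rfl
    intro k _
    rw [Finset.sum_mul]
    apply Finset.sum_congr rfl
    intro l _
    ring
  simp_rw [h1]
  rw [integral_finsetSum _ (fun k _ => integrable_finsetSum _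
    (fun l _ => (hint _).const_mul _))]
  apply Finset.sum_congr rfl
  intro k _
  rw [integral_finsetSum _ (fun l _ => (hint _).const_mul _)]
  apply Finset.sum_congr rfl
  intro l _
  rw [integral_const_mul]

/-- decomposition into classes, real version -/
theorem integral_classes (J : Finset (Fin d)) (g : (Fin d → AddCircle T) → ℝ)
    (hgi : Integrable g) (hg : DependsOn g (J : Set (Fin d)))
    (s : Finset (Fin d → ℤ)) (a : (Fin d → ℤ) → ℂ) :
    ∫ x, ‖∑ k ∈ s, a k * chi k x‖ ^ 2 * g x =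
      ∑ ξ ∈ s.image (forget J), ∫ x, ‖∑ k ∈ s.filter (fun k => forget J k = ξ),
        a k * chi k x‖ ^ 2 * g x := by
  classical
  have h : ((∫ x, ‖∑ k ∈ s, a k * chi k x‖ ^ 2 * g x : ℝ) : ℂ) =
      ((∑ ξ ∈ s.image (forget J), ∫ x, ‖∑ k ∈ s.filter (fun k => forget J k = ξ),
        a k * chi k x‖ ^ 2 * g x : ℝ) : ℂ) := by
    rw [Complex.ofReal_sum]
    simp_rw [integral_expand g hgi]
    rw [← Finset.sum_fiberwise_of_maps_to (s := s) (t := s.image (forget J)) (g := forget J)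
      (fun k hk => mem_image_of_mem _ hk)]
    apply Finset.sum_congr rfl
    intro ξ _
    apply Finset.sum_congr rfl
    intro k hk
    rw [mem_filter] at hk
    symm
    apply Finset.sum_subset (filter_subset _ _)
    intro l hl hl2
    have hne : forget J l ≠ ξ := fun h => hl2 (mem_filter.2 ⟨hl, h⟩)
    rw [← hk.2] at hne
    obtain ⟨i, hi⟩ := Function.ne_iff.mp hne
    have hiJ : i ∉ J := by
      intro h
      simp only [forget, if_pos h] at hi
      exact hi rfl
    simp only [forget, if_neg hiJ] at hi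
    rw [integral_chi_mul J (fun x => (g x : ℂ)) (fun x y hxy =>
      congrArg (fun t : ℝ => (t : ℂ)) (hg hxy)) (k - l) i hiJ
      (by rw [Pi.sub_apply]; exact sub_ne_zero.2 (fun h => hi h.symm)), mul_zero]
  exact_mod_cast h

theorem enorm_sq_eq (z : ℂ) : ‖z‖ₑ ^ 2 = ENNReal.ofReal (‖z‖ ^ 2) := by
  rw [ENNReal.ofReal_pow (norm_nonneg _), ofReal_norm]

theorem continuous_poly (s : Finset (Fin d → ℤ)) (a : (Fin d → ℤ) → ℂ) :
    Continuous (fun x : Fin d → AddCircle T => ∑ k ∈ s, a k * chi k x) :=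
  continuous_finsetSum _ (fun l _ => continuous_const.mul (continuous_chi _))

theorem norm_poly_le (s : Finset (Fin d → ℤ)) (a : (Fin d → ℤ) → ℂ)
    (x : Fin d → AddCircle T) : ‖∑ k ∈ s, a k * chi k x‖ ≤ ∑ k ∈ s, ‖a k‖ := by
  refine (norm_sum_le _ _).trans (le_of_eq ?_)
  apply Finset.sum_congr rfl
  intro k _
  rw [norm_mul, norm_chi, mul_one]

/-- passing from the lower integral to the integral -/
theorem lintegral_eq_integral (g : (Fin d → AddCircle T) → ℝ≥0∞) (hgm : Measurable g)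
    (hgi : ∫⁻ x, g x ≠ ∞) (s : Finset (Fin d → ℤ)) (a : (Fin d → ℤ) → ℂ) :
    ∫⁻ x, ‖∑ k ∈ s, a k * chi k x‖ₑ ^ 2 * g x =
      ENNReal.ofReal (∫ x, ‖∑ k ∈ s, a k * chi k x‖ ^ 2 * (g x).toReal) := by
  have hgint : Integrable (fun x => (g x).toReal) :=
    integrable_toReal_of_lintegral_ne_top hgm.aemeasurable hgi
  have hint : Integrable (fun x : Fin d → AddCircle T =>
      ‖∑ k ∈ s, a k * chi k x‖ ^ 2 * (g x).toReal) := by
    apply Integrable.bdd_mul (c := (∑ k ∈ s, ‖a k‖) ^ 2) hgint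
      (((continuous_poly s a).norm.pow 2).aestronglyMeasurable)
    refine Filter.Eventually.of_forall (fun x => ?_)
    rw [Real.norm_eq_abs, abs_of_nonneg (sq_nonneg _)]
    exact pow_le_pow_left₀ (norm_nonneg _) (norm_poly_le s a x) 2
  rw [ofReal_integral_eq_lintegral_ofReal hint
    (Filter.Eventually.of_forall (fun x => by positivity))]
  apply lintegral_congr_ae
  filter_upwards [ae_lt_top hgm hgi] with x hx
  rw [ENNReal.ofReal_mul (by positivity), ENNReal.ofReal_toReal hx.ne, enorm_sq_eq]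

/-- decomposition into classes -/
theorem lintegral_classes (J : Finset (Fin d)) (g : (Fin d → AddCircle T) → ℝ≥0∞)
    (hgm : Measurable g) (hgi : ∫⁻ x, g x ≠ ∞) (hg : DependsOn g (J : Set (Fin d)))
    (s : Finset (Fin d → ℤ)) (a : (Fin d → ℤ) → ℂ) :
    ∫⁻ x, ‖∑ k ∈ s, a k * chi k x‖ₑ ^ 2 * g x =
      ∑ ξ ∈ s.image (forget J), ∫⁻ x, ‖∑ k ∈ s.filter (fun k => forget J k = ξ),
        a k * chi k x‖ₑ ^ 2 * g x := by
  classical
  have hgint : Integrable (fun x => (g x).toReal) :=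
    integrable_toReal_of_lintegral_ne_top hgm.aemeasurable hgi
  simp_rw [lintegral_eq_integral g hgm hgi]
  rw [integral_classes J (fun x => (g x).toReal) hgint (fun x y hxy =>
      congrArg ENNReal.toReal (hg hxy)) s a,
    ENNReal.ofReal_sum_of_nonneg]
  intro ξ _
  exact integral_nonneg (fun x => by positivity)

/-- sum over the classes -/
theorem sum_classes (J : Finset (Fin d)) (s : Finset (Fin d → ℤ)) (c : (Fin d → ℤ) → ℝ) :
    ∑ ξ ∈ s.image (forget J), ∑ k ∈ s.filter (fun k => forget J k = ξ), c k = ∑ k ∈ s, c k := by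
  classical
  exact Finset.sum_fiberwise_of_maps_to (fun k hk => mem_image_of_mem _ hk) _

/-- **Densities of one coordinate**: an `L¹` norm suffices. -/
theorem trace_one (i : Fin d) (g : (Fin d → AddCircle T) → ℝ≥0∞)
    (hgm : Measurable g) (hg : DependsOn g (({i} : Finset (Fin d)) : Set (Fin d)))
    (n : ℤ) (s : Finset (Fin d → ℤ)) (a : (Fin d → ℤ) → ℂ) (hs : ∀ k ∈ s, ∑ i, k i ^ 2 = n) :
    ∫⁻ x, ‖∑ k ∈ s, a k * chi k x‖ₑ ^ 2 * g x ≤
      ENNReal.ofReal (2 * ∑ k ∈ s, ‖a k‖ ^ 2) * ∫⁻ x, g x := by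
  classical
  have hnn : ∀ t : Finset (Fin d → ℤ), 0 ≤ ∑ k ∈ t, ‖a k‖ ^ 2 :=
    fun t => Finset.sum_nonneg (fun _ _ => by positivity)
  by_cases hgi : ∫⁻ x, g x = ∞
  · rcases (hnn s).eq_or_lt with h0 | h0
    · have hz : ∀ k ∈ s, a k = 0 := by
        intro k hk
        have := (Finset.sum_eq_zero_iff_of_nonneg (fun k _ => by positivity)).1 h0.symm k hk
        simpa using this
      have : ∀ x : Fin d → AddCircle T, ∑ k ∈ s, a k * chi k x = 0 := fun x =>
        Finset.sum_eq_zero (fun k hk => by rw [hz k hk, zero_mul])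
      simp [this]
    · rw [hgi, ENNReal.mul_top]
      · exact le_top
      · simpa using h0
  rw [lintegral_classes {i} g hgm hgi hg s a, ← sum_classes {i} s (fun k => ‖a k‖ ^ 2),
    Finset.mul_sum, ENNReal.ofReal_sum_of_nonneg (fun ξ _ => by
      have := hnn (s.filter (fun k => forget {i} k = ξ)); positivity), Finset.sum_mul]
  apply Finset.sum_le_sum
  intro ξ _
  set t := s.filter (fun k => forget {i} k = ξ) with ht
  -- at most two frequencies in a class
  have hcard : (t.card : ℝ) ≤ 2 := by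
    have h2 : t.card ≤ 2 := by
      by_contra hcon
      rw [not_le] at hcon
      obtain ⟨k, hk, l, hl, m, hm, hkl, hkm, hlm⟩ := Finset.two_lt_card.1 hcon
      rw [ht, mem_filter] at hk hl hm
      have hoff : ∀ p q : Fin d → ℤ, forget {i} p = ξ → forget {i} q = ξ → ∀ j, j ≠ i →
          p j = q j := by
        intro p q hp hq j hj
        have h1 := congrFun (hp.trans hq.symm) j
        simpa [forget, hj] using h1
      have hsq : ∀ p q : Fin d → ℤ, p ∈ s → q ∈ s → forget {i} p = ξ → forget {i} q = ξ →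
          p i ^ 2 = q i ^ 2 := by
        intro p q hp hq hp2 hq2
        have h1 := hs p hp
        have h2 := hs q hq
        rw [← Finset.add_sum_erase _ _ (mem_univ i)] at h1 h2
        have h3 : ∑ j ∈ univ.erase i, p j ^ 2 = ∑ j ∈ univ.erase i, q j ^ 2 := by
          apply Finset.sum_congr rfl
          intro j hj
          rw [hoff p q hp2 hq2 j (ne_of_mem_erase hj)]
        linarith
      have hne : ∀ p q : Fin d → ℤ, forget {i} p = ξ → forget {i} q = ξ → p ≠ q →
          p i ≠ q i := by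
        intro p q hp hq hpq h
        apply hpq
        funext j
        by_cases hj : j = i
        · rw [hj, h]
        · exact hoff p q hp hq j hj
      have a1 := hne k l hk.2 hl.2 hkl
      have a2 := hne k m hk.2 hm.2 hkm
      have a3 := hne l m hl.2 hm.2 hlm
      rcases sq_eq_sq_iff_eq_or_eq_neg.1 (hsq k l hk.1 hl.1 hk.2 hl.2) with b1 | b1
      · exact a1 b1
      · rcases sq_eq_sq_iff_eq_or_eq_neg.1 (hsq k m hk.1 hm.1 hk.2 hm.2) with b2 | b2
        · exact a2 b2
        · apply a3; linarith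
    exact_mod_cast h2
  calc ∫⁻ x, ‖∑ k ∈ t, a k * chi k x‖ₑ ^ 2 * g x
      ≤ ∫⁻ x, ENNReal.ofReal (2 * ∑ k ∈ t, ‖a k‖ ^ 2) * g x := by
        apply lintegral_mono
        intro x
        apply mul_le_mul_left
        rw [enorm_sq_eq]
        apply ENNReal.ofReal_le_ofReal
        calc ‖∑ k ∈ t, a k * chi k x‖ ^ 2 ≤ (∑ k ∈ t, ‖a k‖) ^ 2 :=
              pow_le_pow_left₀ (norm_nonneg _) (norm_poly_le t a x) 2
          _ ≤ t.card * ∑ k ∈ t, ‖a k‖ ^ 2 := sq_sum_le_card_mul_sum_sq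
          _ ≤ 2 * ∑ k ∈ t, ‖a k‖ ^ 2 := mul_le_mul_of_nonneg_right hcard (hnn t)
    _ = ENNReal.ofReal (2 * ∑ k ∈ t, ‖a k‖ ^ 2) * ∫⁻ x, g x :=
        lintegral_const_mul' _ _ ENNReal.ofReal_ne_top

/-- **Zygmund's lemma**: if every nonzero difference is represented at most twice, the fourth
moment is bounded by the square of the second moment. -/
theorem fourth_moment (s : Finset (Fin d → ℤ)) (a : (Fin d → ℤ) → ℂ)
    (h2 : ∀ h : Fin d → ℤ, h ≠ 0 → ((s ×ˢ s).filter (fun z => z.1 - z.2 = h)).card ≤ 2) :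
    ∫⁻ x : Fin d → AddCircle T, (‖∑ k ∈ s, a k * chi k x‖ₑ ^ 2) ^ 2 ≤
      ENNReal.ofReal (3 * T ^ d * (∑ k ∈ s, ‖a k‖ ^ 2) ^ 2) := by
  classical
  have hT0 : 0 < T := hT.out
  let f : (Fin d → ℤ) × (Fin d → ℤ) → (Fin d → ℤ) := fun z => z.1 - z.2
  set D := (s ×ˢ s).image f with hD
  let c : (Fin d → ℤ) → ℂ := fun h => ∑ z ∈ (s ×ˢ s).filter (fun z => f z = h),
    a z.1 * conj (a z.2)
  set A : ℝ := ∑ k ∈ s, ‖a k‖ ^ 2 with hA
  have hexp : ∀ x : Fin d → AddCircle T, ((‖∑ k ∈ s, a k * chi k x‖ ^ 2 : ℝ) : ℂ) =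
      ∑ h ∈ D, c h * chi h x := by
    intro x
    rw [normSq_expand, ← Finset.sum_product',
      ← Finset.sum_fiberwise_of_maps_to (s := s ×ˢ s) (t := D) (g := f)
      (fun z hz => mem_image_of_mem f hz)]
    apply Finset.sum_congr rfl
    intro h _
    simp only [c]
    rw [Finset.sum_mul]
    apply Finset.sum_congr rfl
    intro z hz
    rw [mem_filter] at hz
    rw [← hz.2]
  have h1 : ∀ x : Fin d → AddCircle T, (‖∑ k ∈ s, a k * chi k x‖ₑ ^ 2) ^ 2 =
      ‖∑ h ∈ D, c h * chi h x‖ₑ ^ 2 := by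
    intro x
    rw [← hexp, enorm_sq_eq, enorm_sq_eq, Complex.norm_real, Real.norm_eq_abs, sq_abs]
    exact (ENNReal.ofReal_pow (by positivity) 2).symm
  simp_rw [h1]
  rw [lparseval]
  apply ENNReal.ofReal_le_ofReal
  have hzero : ‖c 0‖ ^ 2 ≤ A ^ 2 := by
    apply pow_le_pow_left₀ (norm_nonneg _)
    refine (norm_sum_le _ _).trans ?_
    calc ∑ z ∈ (s ×ˢ s).filter (fun z => f z = 0), ‖a z.1 * conj (a z.2)‖
        ≤ ∑ z ∈ s.image (fun k => (k, k)), ‖a z.1 * conj (a z.2)‖ := by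
          apply Finset.sum_le_sum_of_subset_of_nonneg
          · intro z hz
            rw [mem_filter, mem_product] at hz
            rw [mem_image]
            refine ⟨z.1, hz.1.1, ?_⟩
            have : z.1 = z.2 := sub_eq_zero.1 hz.2
            exact Prod.ext rfl this
          · intro _ _ _; positivity
      _ = A := by
          rw [Finset.sum_image (fun x _ y _ h => (Prod.ext_iff.1 h).1), hA]
          apply Finset.sum_congr rfl
          intro k _
          rw [norm_mul, RCLike.norm_conj]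
          ring
  have hne : ∀ h, h ≠ 0 → ‖c h‖ ^ 2 ≤
      2 * ∑ z ∈ (s ×ˢ s).filter (fun z => f z = h), ‖a z.1‖ ^ 2 * ‖a z.2‖ ^ 2 := by
    intro h hh
    have h3 : ‖c h‖ ≤ ∑ z ∈ (s ×ˢ s).filter (fun z => f z = h), ‖a z.1‖ * ‖a z.2‖ := by
      refine (norm_sum_le _ _).trans (le_of_eq ?_)
      apply Finset.sum_congr rfl
      intro z _
      rw [norm_mul, RCLike.norm_conj]
    calc ‖c h‖ ^ 2 ≤ (∑ z ∈ (s ×ˢ s).filter (fun z => f z = h), ‖a z.1‖ * ‖a z.2‖) ^ 2 :=
          pow_le_pow_left₀ (norm_nonneg _) h3 2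
      _ ≤ ((s ×ˢ s).filter (fun z => f z = h)).card *
          ∑ z ∈ (s ×ˢ s).filter (fun z => f z = h), (‖a z.1‖ * ‖a z.2‖) ^ 2 :=
          sq_sum_le_card_mul_sum_sq
      _ ≤ 2 * ∑ z ∈ (s ×ˢ s).filter (fun z => f z = h), (‖a z.1‖ * ‖a z.2‖) ^ 2 := by
          apply mul_le_mul_of_nonneg_right _ (Finset.sum_nonneg (fun _ _ => by positivity))
          exact_mod_cast h2 h hh
      _ = _ := by
          congr 1
          apply Finset.sum_congr rfl
          intro z _
          rw [mul_pow]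
  have htot : ∑ h ∈ D, ‖c h‖ ^ 2 ≤ 3 * A ^ 2 := by
    have hall : ∀ h ∈ D, ‖c h‖ ^ 2 ≤ (if h = 0 then A ^ 2 else 0) +
        2 * ∑ z ∈ (s ×ˢ s).filter (fun z => f z = h), ‖a z.1‖ ^ 2 * ‖a z.2‖ ^ 2 := by
      intro h _
      have hp : 0 ≤ 2 * ∑ z ∈ (s ×ˢ s).filter (fun z => f z = h), ‖a z.1‖ ^ 2 * ‖a z.2‖ ^ 2 :=
        mul_nonneg (by norm_num) (Finset.sum_nonneg (fun _ _ => by positivity))
      by_cases hh : h = 0
      · rw [if_pos hh]
        rw [hh] at hp ⊢
        linarith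
      · rw [if_neg hh, zero_add]
        exact hne h hh
    refine (Finset.sum_le_sum hall).trans ?_
    rw [Finset.sum_add_distrib, ← Finset.mul_sum, Finset.sum_fiberwise_of_maps_to
      (fun z hz => mem_image_of_mem f hz), Finset.sum_product]
    have h4 : ∑ x ∈ D, (if x = 0 then A ^ 2 else 0) ≤ A ^ 2 := by
      rw [Finset.sum_ite_eq']
      split_ifs
      · exact le_rfl
      · positivity
    have h5 : ∑ x ∈ s, ∑ y ∈ s, ‖a x‖ ^ 2 * ‖a y‖ ^ 2 = A ^ 2 := by
      rw [← Finset.sum_mul_sum, hA, sq]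
    simp only [h5]
    linarith
  calc T ^ d * ∑ k ∈ D, ‖c k‖ ^ 2 ≤ T ^ d * (3 * A ^ 2) :=
        mul_le_mul_of_nonneg_left htot (by positivity)
    _ = _ := by ring

/-- In a class for two coordinates every nonzero difference is represented at most twice. -/
theorem two_reps (i j : Fin d) (hij : i ≠ j) (n : ℤ) (t : Finset (Fin d → ℤ))
    (ξ : Fin d → ℤ) (ht : ∀ k ∈ t, ∑ i, k i ^ 2 = n) (hξ : ∀ k ∈ t, forget {i, j} k = ξ)
    (h : Fin d → ℤ) (hh : h ≠ 0) : ((t ×ˢ t).filter (fun z => z.1 - z.2 = h)).card ≤ 2 := by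
  classical
  by_contra hcon
  rw [not_le] at hcon
  obtain ⟨z, hz, w, hw, v, hv, hzw, hzv, hwv⟩ := Finset.two_lt_card.1 hcon
  rw [mem_filter, mem_product] at hz hw hv
  have hoff : ∀ p q : Fin d → ℤ, p ∈ t → q ∈ t → ∀ r, r ≠ i → r ≠ j → p r = q r := by
    intro p q hp hq r hr hr2
    have h1 := congrFun ((hξ p hp).trans (hξ q hq).symm) r
    simpa [forget, hr, hr2] using h1
  have hsum : ∀ p : Fin d → ℤ, ∑ r, p r ^ 2 = (p i ^ 2 + p j ^ 2) +
      ∑ r ∈ ({i, j} : Finset (Fin d))ᶜ, p r ^ 2 := by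
    intro p
    rw [← Finset.sum_add_sum_compl ({i, j} : Finset (Fin d)), Finset.sum_pair hij]
  have hmem : ∀ r, r ∈ ({i, j} : Finset (Fin d))ᶜ → r ≠ i ∧ r ≠ j := by
    intro r hr
    simpa [not_or] using hr
  -- common value on the circle
  set c : ℤ := n - ∑ r ∈ ({i, j} : Finset (Fin d))ᶜ, z.1 r ^ 2 with hc
  have hcirc : ∀ p ∈ t, p i ^ 2 + p j ^ 2 = c := by
    intro p hp
    have h1 := ht p hp
    rw [hsum p] at h1
    have h3 : ∑ r ∈ ({i, j} : Finset (Fin d))ᶜ, p r ^ 2 =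
        ∑ r ∈ ({i, j} : Finset (Fin d))ᶜ, z.1 r ^ 2 := by
      apply Finset.sum_congr rfl
      intro r hr
      rw [hoff p z.1 hp hz.1.1 r (hmem r hr).1 (hmem r hr).2]
    rw [hc]; linarith
  -- the line
  have hline : ∀ y : (Fin d → ℤ) × (Fin d → ℤ), y.1 ∈ t → y.2 ∈ t → y.1 - y.2 = h →
      2 * (y.1 i * h i + y.1 j * h j) = h i ^ 2 + h j ^ 2 := by
    intro y hy1 hy2 hy3
    have h1 := hcirc y.1 hy1
    have h2 := hcirc y.2 hy2
    have e1 : h i = y.1 i - y.2 i := by rw [← hy3]; rfl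
    have e2 : h j = y.1 j - y.2 j := by rw [← hy3]; rfl
    rw [e1, e2]
    linear_combination h1 - h2
  have hhij : h i ≠ 0 ∨ h j ≠ 0 := by
    by_contra hcon2
    push Not at hcon2
    apply hh
    funext r
    by_cases hr : r = i
    · rw [hr]; exact hcon2.1
    · by_cases hr2 : r = j
      · rw [hr2]; exact hcon2.2
      · have : h r = z.1 r - z.2 r := by rw [← hz.2]; rfl
        rw [this, hoff z.1 z.2 hz.1.1 hz.1.2 r hr hr2, sub_self]
        rfl
  have hdist : ∀ y y' : (Fin d → ℤ) × (Fin d → ℤ), y.1 ∈ t → y'.1 ∈ t → y.1 - y.2 = h →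
      y'.1 - y'.2 = h → y ≠ y' → (y.1 i, y.1 j) ≠ (y'.1 i, y'.1 j) := by
    intro y y' hy hy' hd hd' hne heq
    apply hne
    have e1 : y.1 = y'.1 := by
      funext r
      by_cases hr : r = i
      · rw [hr]; exact (Prod.ext_iff.1 heq).1
      · by_cases hr2 : r = j
        · rw [hr2]; exact (Prod.ext_iff.1 heq).2
        · exact hoff y.1 y'.1 hy hy' r hr hr2
    refine Prod.ext e1 ?_
    have e2 : y.2 = y.1 - h := by rw [← hd]; simp
    have e3 : y'.2 = y'.1 - h := by rw [← hd']; simp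
    rw [e2, e3, e1]
  have hlz := hline z hz.1.1 hz.1.2 hz.2
  have hlw := hline w hw.1.1 hw.1.2 hw.2
  have hlv := hline v hv.1.1 hv.1.2 hv.2
  have hid := circum (z.1 i) (z.1 j) (w.1 i) (w.1 j) (v.1 i) (v.1 j) c
    (hcirc _ hz.1.1) (hcirc _ hw.1.1) (hcirc _ hv.1.1)
  have p1 := sq_pos_of_ne _ _ _ _ (hdist z w hz.1.1 hw.1.1 hz.2 hw.2 hzw)
  have p2 := sq_pos_of_ne _ _ _ _ (hdist z v hz.1.1 hv.1.1 hz.2 hv.2 hzv)
  have p3 := sq_pos_of_ne _ _ _ _ (hdist w v hw.1.1 hv.1.1 hw.2 hv.2 hwv)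
  have hD : (w.1 i - z.1 i) * (v.1 j - z.1 j) - (w.1 j - z.1 j) * (v.1 i - z.1 i) = 0 := by
    have e1 : (w.1 i - z.1 i) * h i + (w.1 j - z.1 j) * h j = 0 := by linarith
    have e2 : (v.1 i - z.1 i) * h i + (v.1 j - z.1 j) * h j = 0 := by linarith
    rcases hhij with h0 | h0
    · apply mul_left_cancel₀ h0
      linear_combination (v.1 j - z.1 j) * e1 - (w.1 j - z.1 j) * e2
    · apply mul_left_cancel₀ h0
      linear_combination (w.1 i - z.1 i) * e2 - (v.1 i - z.1 i) * e1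
  rw [hD] at hid
  have : 0 < ((w.1 i - z.1 i) ^ 2 + (w.1 j - z.1 j) ^ 2) *
      ((v.1 i - z.1 i) ^ 2 + (v.1 j - z.1 j) ^ 2) *
        ((v.1 i - w.1 i) ^ 2 + (v.1 j - w.1 j) ^ 2) := by positivity
  rw [← hid] at this
  simp at this

/-- **Densities of two coordinates**: an `L²` norm suffices. -/
theorem trace_two (i j : Fin d) (hij : i ≠ j) (g : (Fin d → AddCircle T) → ℝ≥0∞)
    (hgm : Measurable g) (hg : DependsOn g (({i, j} : Finset (Fin d)) : Set (Fin d)))
    (n : ℤ) (s : Finset (Fin d → ℤ)) (a : (Fin d → ℤ) → ℂ) (hs : ∀ k ∈ s, ∑ i, k i ^ 2 = n) :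
    ∫⁻ x, ‖∑ k ∈ s, a k * chi k x‖ₑ ^ 2 * g x ≤
      ENNReal.ofReal (Real.sqrt (3 * T ^ d) * ∑ k ∈ s, ‖a k‖ ^ 2) *
        (∫⁻ x, g x ^ (2 : ℝ)) ^ (1 / (2 : ℝ)) := by
  classical
  have hT0 : 0 < T := hT.out
  have hnn : ∀ t : Finset (Fin d → ℤ), 0 ≤ ∑ k ∈ t, ‖a k‖ ^ 2 :=
    fun t => Finset.sum_nonneg (fun _ _ => by positivity)
  by_cases hgi : ∫⁻ x, g x = ∞
  · rcases (hnn s).eq_or_lt with h0 | h0
    · have hz : ∀ k ∈ s, a k = 0 := by
        intro k hk
        have := (Finset.sum_eq_zero_iff_of_nonneg (fun k _ => by positivity)).1 h0.symm k hk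
        simpa using this
      have : ∀ x : Fin d → AddCircle T, ∑ k ∈ s, a k * chi k x = 0 := fun x =>
        Finset.sum_eq_zero (fun k hk => by rw [hz k hk, zero_mul])
      simp [this]
    · have h2 : (∫⁻ x, g x ^ (2 : ℝ)) = ∞ := by
        by_contra hne
        have hle : ∫⁻ x, g x ≤ ∫⁻ x, (1 + g x ^ (2 : ℝ)) := by
          apply lintegral_mono
          intro x
          rcases le_total (g x) 1 with h | h
          · exact h.trans le_self_add
          · calc g x = g x ^ (1 : ℝ) := (ENNReal.rpow_one _).symm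
              _ ≤ g x ^ (2 : ℝ) := ENNReal.rpow_le_rpow_of_exponent_le h (by norm_num)
              _ ≤ 1 + g x ^ (2 : ℝ) := le_add_self
        rw [hgi, lintegral_add_left measurable_const, lintegral_const, one_mul, top_le_iff,
          ENNReal.add_eq_top] at hle
        rcases hle with h | h
        · exact measure_ne_top _ _ h
        · exact hne h
      rw [h2, ENNReal.top_rpow_of_pos (by norm_num), ENNReal.mul_top]
      · exact le_top
      · have : 0 < Real.sqrt (3 * T ^ d) * ∑ k ∈ s, ‖a k‖ ^ 2 := by positivity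
        exact (ENNReal.ofReal_pos.2 this).ne'
  rw [lintegral_classes {i, j} g hgm hgi hg s a, ← sum_classes {i, j} s (fun k => ‖a k‖ ^ 2),
    Finset.mul_sum, ENNReal.ofReal_sum_of_nonneg (fun ξ _ => by
      have := hnn (s.filter (fun k => forget {i, j} k = ξ)); positivity), Finset.sum_mul]
  apply Finset.sum_le_sum
  intro ξ _
  set t := s.filter (fun k => forget {i, j} k = ξ) with ht
  have h4 := fourth_moment (T := T) t a (fun h hh => two_reps i j hij n t ξ
    (fun k hk => hs k (mem_filter.1 hk).1) (fun k hk => (mem_filter.1 hk).2) h hh)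
  have hholder := ENNReal.lintegral_mul_le_Lp_mul_Lq (volume : Measure (Fin d → AddCircle T))
    (p := 2) (q := 2) Real.HolderConjugate.two_two
    (f := fun x => ‖∑ k ∈ t, a k * chi k x‖ₑ ^ 2) (g := g)
    ((continuous_poly t a).measurable.enorm.pow_const 2).aemeasurable hgm.aemeasurable
  refine hholder.trans ?_
  apply mul_le_mul_left
  have h5 : ∀ x : Fin d → AddCircle T, (‖∑ k ∈ t, a k * chi k x‖ₑ ^ 2) ^ (2 : ℝ) =
      (‖∑ k ∈ t, a k * chi k x‖ₑ ^ 2) ^ 2 := by
    intro x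
    rw [← ENNReal.rpow_natCast]
    norm_num
  simp_rw [h5]
  calc (∫⁻ x : Fin d → AddCircle T, (‖∑ k ∈ t, a k * chi k x‖ₑ ^ 2) ^ 2) ^ (1 / (2 : ℝ))
      ≤ (ENNReal.ofReal (3 * T ^ d * (∑ k ∈ t, ‖a k‖ ^ 2) ^ 2)) ^ (1 / (2 : ℝ)) :=
        ENNReal.rpow_le_rpow h4 (by norm_num)
    _ = ENNReal.ofReal (Real.sqrt (3 * T ^ d) * ∑ k ∈ t, ‖a k‖ ^ 2) := by
        rw [ENNReal.ofReal_rpow_of_nonneg (by positivity) (by norm_num)]
        congr 1
        rw [← Real.sqrt_eq_rpow, Real.sqrt_mul (by positivity), Real.sqrt_sq (hnn t)]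

end

end Pool.Agent.TorusTrace
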