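import Pool.Agent.TorusTrace.Main
import Pool.Agent.TorusTrace.Zyg

set_option autoImplicit false
set_option linter.unusedSectionVars false
set_option linter.unusedVariables false

/-!
Densities which are arbitrary in at most two coordinates and decreasing in the other ones.
-/

namespace Pool.Agent.TorusTrace

open Finset MeasureTheory ComplexConjugate
open scoped ENNReal NNReal

noncomputable section

variable {T : ℝ} {d : ℕ} [hT : Fact (0 < T)]

/-- independence of the coordinates in `J` and off `J` -/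
theorem indep (J : Finset (Fin d)) (G : (Fin d → AddCircle T) → ℝ≥0∞) (hG : Measurable G)
    (hdep : DependsOn G (J : Set (Fin d))) (S : Fin d → Set (AddCircle T))
    (hS : ∀ i, MeasurableSet (S i)) :
    (∫⁻ x, G x) * ∏ i : {i // i ∉ J}, volume (S i) =
      volume (Set.univ : Set ({i // i ∉ J} → AddCircle T)) *
        ∫⁻ x in {x : Fin d → AddCircle T | ∀ i, i ∉ J → x i ∈ S i}, G x := by
  classical
  let e := MeasurableEquiv.piEquivPiSubtypeProd (fun _ : Fin d => AddCircle T) (fun i => i ∉ J)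
  have he : MeasurePreserving e volume volume :=
    volume_preserving_piEquivPiSubtypeProd (fun _ : Fin d => AddCircle T) (fun i => i ∉ J)
  let ex : ({i // ¬ i ∉ J} → AddCircle T) → (Fin d → AddCircle T) :=
    fun a i => if h : ¬ i ∉ J then a ⟨i, h⟩ else 0
  have hext : Measurable ex := by
    apply measurable_pi_lambda
    intro i
    by_cases h : ¬ i ∉ J
    · simp only [ex, dif_pos h]
      exact measurable_pi_apply _
    · simp only [ex, dif_neg h]
      exact measurable_const
  let G' : ({i // ¬ i ∉ J} → AddCircle T) → ℝ≥0∞ := fun a => G (ex a)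
  have hG' : Measurable G' := hG.comp hext
  have hGe : ∀ x, G x = G' (e x).2 := by
    intro x
    apply hdep
    intro i hi
    have hi' : ¬ i ∉ J := not_not.2 hi
    simp only [ex, dif_pos hi']
    rfl
  let Q' : Set ({i // i ∉ J} → AddCircle T) := Set.univ.pi (fun i => S i)
  have hQ' : MeasurableSet Q' := MeasurableSet.univ_pi (fun i => hS i)
  have hQ : MeasurableSet {x : Fin d → AddCircle T | ∀ i, i ∉ J → x i ∈ S i} := by
    have : {x : Fin d → AddCircle T | ∀ i, i ∉ J → x i ∈ S i} =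
        ⋂ i : {i // i ∉ J}, {x | x i ∈ S i} := by
      ext x
      simp
    rw [this]
    exact MeasurableSet.iInter (fun i => (hS i).preimage (measurable_pi_apply _))
  have h1 : ∫⁻ x, G x = volume (Set.univ : Set ({i // i ∉ J} → AddCircle T)) *
      (∫⁻ a, G' a) := by
    calc ∫⁻ x, G x = ∫⁻ x, G' (e x).2 := lintegral_congr hGe
      _ = ∫⁻ z, G' z.2 ∂(volume : Measure (({i // i ∉ J} → AddCircle T) ×
          ({i // ¬ i ∉ J} → AddCircle T))) :=
          he.lintegral_comp (f := fun z => G' z.2) (hG'.comp measurable_snd)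
      _ = ∫⁻ z, 1 * G' z.2 ∂(volume : Measure (({i // i ∉ J} → AddCircle T) ×
          ({i // ¬ i ∉ J} → AddCircle T))) := by simp
      _ = _ := by
          rw [Measure.volume_eq_prod, lintegral_prod_mul (f := fun _ => 1) (g := G')
            aemeasurable_const hG'.aemeasurable, lintegral_one]
  have h2 : ∫⁻ x in {x : Fin d → AddCircle T | ∀ i, i ∉ J → x i ∈ S i}, G x =
      volume Q' * (∫⁻ a, G' a) := by
    rw [← lintegral_indicator hQ]
    calc ∫⁻ x, ({x : Fin d → AddCircle T | ∀ i, i ∉ J → x i ∈ S i}).indicator G x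
        = ∫⁻ x, Q'.indicator (fun _ => 1) (e x).1 * G' (e x).2 := by
          apply lintegral_congr
          intro x
          by_cases hx : x ∈ {x : Fin d → AddCircle T | ∀ i, i ∉ J → x i ∈ S i}
          · rw [Set.indicator_of_mem hx, Set.indicator_of_mem, one_mul, hGe]
            intro i _
            exact hx i i.2
          · rw [Set.indicator_of_notMem hx, Set.indicator_of_notMem, zero_mul]
            intro hx'
            apply hx
            intro i hi
            exact hx' ⟨i, hi⟩ (Set.mem_univ _)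
      _ = ∫⁻ z, Q'.indicator (fun _ => 1) z.1 * G' z.2
          ∂(volume : Measure (({i // i ∉ J} → AddCircle T) ×
          ({i // ¬ i ∉ J} → AddCircle T))) :=
          he.lintegral_comp (f := fun z => Q'.indicator (fun _ => 1) z.1 * G' z.2)
            (((measurable_const.indicator hQ').comp measurable_fst).mul
              (hG'.comp measurable_snd))
      _ = _ := by
          rw [Measure.volume_eq_prod, lintegral_prod_mul (f := Q'.indicator (fun _ => 1))
            (g := G') (measurable_const.indicator hQ').aemeasurable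
            hG'.aemeasurable,
            lintegral_indicator hQ', setLIntegral_one]
  rw [h1, h2, volume_pi_pi]
  ring

/-- interpolation between a bounded and an integrable density -/
theorem interp (w g : (Fin d → AddCircle T) → ℝ≥0∞) (hw : Measurable w) (hg : Measurable g)
    (B : Set (Fin d → AddCircle T)) (E : ℝ≥0∞) (G C Γ q p : ℝ) (hG : 0 < G) (hC : 0 ≤ C)
    (hΓ : 0 < Γ) (hq : 0 < q) (hqp : q < p) (ha : ∫⁻ x in B, w x ≤ ENNReal.ofReal G * E)
    (hb : ∀ c : ℝ≥0∞, ∫⁻ x, w x * (c * g x ^ (p / q)) ≤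
      ENNReal.ofReal C * (∫⁻ x, (c * g x ^ (p / q)) ^ q) ^ (1 / q) * E)
    (hc : (∫⁻ x, g x ^ p) ^ (1 / p) ≤ ENNReal.ofReal Γ) :
    ∫⁻ x in B, w x * g x ≤ ENNReal.ofReal ((1 + C) * (Γ * G ^ (1 - q / p))) * E := by
  have hp : 0 < p := hq.trans hqp
  set lam : ℝ := Γ * G ^ (-(q / p)) with hlam
  have hlam0 : 0 < lam := by positivity
  -- pointwise inequality
  have hpt : ∀ x, g x ≤ ENNReal.ofReal lam +
      ENNReal.ofReal (lam ^ (1 - p / q)) * g x ^ (p / q) := by
    intro x
    rcases le_total (g x) (ENNReal.ofReal lam) with h | h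
    · exact h.trans le_self_add
    · refine le_trans ?_ le_add_self
      by_cases htop : g x = ∞
      · rw [htop, ENNReal.top_rpow_of_pos (by positivity), ENNReal.mul_top]
        exact (ENNReal.ofReal_pos.2 (by positivity)).ne'
      · have h1 : lam ≤ (g x).toReal := by
          rw [← ENNReal.ofReal_le_iff_le_toReal htop]
          exact h
        have h0 : 0 < (g x).toReal := hlam0.trans_le h1
        rw [← ENNReal.ofReal_toReal htop, ENNReal.ofReal_rpow_of_pos h0,
          ← ENNReal.ofReal_mul (by positivity)]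
        apply ENNReal.ofReal_le_ofReal
        have h2 : (g x).toReal ^ (1 - p / q) ≤ lam ^ (1 - p / q) := by
          apply Real.rpow_le_rpow_of_nonpos hlam0 h1
          have : 1 < p / q := by rw [lt_div_iff₀ hq]; linarith
          linarith
        calc (g x).toReal = (g x).toReal ^ (1 - p / q) * (g x).toReal ^ (p / q) := by
              rw [← Real.rpow_add h0]; simp
          _ ≤ lam ^ (1 - p / q) * (g x).toReal ^ (p / q) :=
              mul_le_mul_of_nonneg_right h2 (by positivity)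
  have hsecond : (∫⁻ x, (ENNReal.ofReal (lam ^ (1 - p / q)) * g x ^ (p / q)) ^ q) ^ (1 / q) ≤
      ENNReal.ofReal (Γ * G ^ (1 - q / p)) := by
    have h3 : ∀ x, (ENNReal.ofReal (lam ^ (1 - p / q)) * g x ^ (p / q)) ^ q =
        ENNReal.ofReal (lam ^ (1 - p / q)) ^ q * g x ^ p := by
      intro x
      rw [ENNReal.mul_rpow_of_nonneg _ _ hq.le, ← ENNReal.rpow_mul, div_mul_cancel₀ _ hq.ne']
    simp_rw [h3]
    rw [lintegral_const_mul' _ _ (ENNReal.rpow_ne_top_of_nonneg hq.le ENNReal.ofReal_ne_top),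
      ENNReal.mul_rpow_of_nonneg _ _ (by positivity), ← ENNReal.rpow_mul,
      mul_one_div_cancel hq.ne', ENNReal.rpow_one]
    have h4 : (∫⁻ x, g x ^ p) ^ (1 / q) ≤ ENNReal.ofReal (Γ ^ (p / q)) := by
      calc (∫⁻ x, g x ^ p) ^ (1 / q) = ((∫⁻ x, g x ^ p) ^ (1 / p)) ^ (p / q) := by
            rw [← ENNReal.rpow_mul]
            congr 1
            field_simp
        _ ≤ ENNReal.ofReal Γ ^ (p / q) := ENNReal.rpow_le_rpow hc (by positivity)
        _ = ENNReal.ofReal (Γ ^ (p / q)) := ENNReal.ofReal_rpow_of_pos hΓ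
    refine (mul_le_mul_right h4 _).trans (le_of_eq ?_)
    rw [← ENNReal.ofReal_mul (by positivity)]
    congr 1
    rw [hlam, Real.mul_rpow hΓ.le (by positivity), ← Real.rpow_mul hG.le]
    have h5 : Γ ^ (1 - p / q) * G ^ (-(q / p) * (1 - p / q)) * Γ ^ (p / q) =
        (Γ ^ (1 - p / q) * Γ ^ (p / q)) * G ^ (-(q / p) * (1 - p / q)) := by ring
    rw [h5, ← Real.rpow_add hΓ, show 1 - p / q + p / q = 1 by ring, Real.rpow_one]
    congr 2
    field_simp
    ring
  calc ∫⁻ x in B, w x * g x
      ≤ ∫⁻ x in B, (ENNReal.ofReal lam * w x +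
          w x * (ENNReal.ofReal (lam ^ (1 - p / q)) * g x ^ (p / q))) := by
        apply lintegral_mono
        intro x
        calc w x * g x ≤ w x * (ENNReal.ofReal lam +
              ENNReal.ofReal (lam ^ (1 - p / q)) * g x ^ (p / q)) := mul_le_mul_right (hpt x) _
          _ = _ := by rw [mul_add, mul_comm (w x) (ENNReal.ofReal lam)]
    _ = (∫⁻ x in B, ENNReal.ofReal lam * w x) +
          ∫⁻ x in B, w x * (ENNReal.ofReal (lam ^ (1 - p / q)) * g x ^ (p / q)) :=
        lintegral_add_left (hw.const_mul _) _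
    _ ≤ ENNReal.ofReal lam * (ENNReal.ofReal G * E) +
          ENNReal.ofReal C * ENNReal.ofReal (Γ * G ^ (1 - q / p)) * E := by
        apply add_le_add
        · rw [lintegral_const_mul' _ _ ENNReal.ofReal_ne_top]
          exact mul_le_mul_right ha _
        · refine (setLIntegral_le_lintegral _ _).trans ?_
          refine (hb _).trans ?_
          exact mul_le_mul_left (mul_le_mul_right hsecond _) _
    _ = ENNReal.ofReal ((1 + C) * (Γ * G ^ (1 - q / p))) * E := by
        rw [← mul_assoc, ← ENNReal.ofReal_mul hlam0.le, ← ENNReal.ofReal_mul hC, ← add_mul,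
          ← ENNReal.ofReal_add (by positivity) (by positivity)]
        congr 2
        have h6 : lam * G = Γ * G ^ (1 - q / p) := by
          rw [hlam, mul_assoc]
          congr 1
          calc G ^ (-(q / p)) * G = G ^ (-(q / p)) * G ^ (1 : ℝ) := by rw [Real.rpow_one]
            _ = G ^ (1 - q / p) := by
              rw [← Real.rpow_add hG]
              congr 1
              ring
        rw [h6]
        ring

/-- geometric series over `ι → ℕ` -/
theorem tsum_pi_geometric' (ι : Type) [Fintype ι] (r : ℝ≥0∞) :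
    ∑' m : ι → ℕ, r ^ (∑ i, m i) = (∑' n : ℕ, r ^ n) ^ (Fintype.card ι) := by
  classical
  rw [← tsum_pi_geometric r (Fintype.card ι)]
  let e : (Fin (Fintype.card ι) → ℕ) ≃ (ι → ℕ) :=
    (Fintype.equivFin ι).symm.arrowCongr (Equiv.refl ℕ)
  rw [← e.tsum_eq]
  apply tsum_congr
  intro m
  congr 1
  have : ∀ i, e m i = m (Fintype.equivFin ι i) := by
    intro i
    simp [e, Equiv.arrowCongr]
  simp_rw [this]
  exact (Fintype.equivFin ι).sum_comp m

/-- the dyadic shells -/
def shell (J : Finset (Fin d)) (y : Fin d → AddCircle T) (m : {i // i ∉ J} → ℕ) :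
    Set (Fin d → AddCircle T) :=
  {x | ∀ i : {i // i ∉ J}, T / 2 ^ (m i + 2) < ‖x i - y i‖ ∧ ‖x i - y i‖ ≤ T / 2 ^ (m i + 1)}

theorem measurableSet_shell (J : Finset (Fin d)) (y : Fin d → AddCircle T)
    (m : {i // i ∉ J} → ℕ) : MeasurableSet (shell J y m) := by
  have h1 : shell J y m = ⋂ i : {i // i ∉ J}, {x | T / 2 ^ (m i + 2) < ‖x i - y i‖ ∧
      ‖x i - y i‖ ≤ T / 2 ^ (m i + 1)} := by
    ext x; simp [shell]
  rw [h1]
  apply MeasurableSet.iInter
  intro i
  have hc : Measurable (fun x : Fin d → AddCircle T => ‖x i - y i‖) :=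
    (((continuous_apply i.1).sub continuous_const).norm).measurable
  exact (measurableSet_lt measurable_const hc).inter (measurableSet_le hc measurable_const)

theorem ae_mem_shell (J : Finset (Fin d)) (y : Fin d → AddCircle T) :
    ∀ᵐ x : Fin d → AddCircle T, x ∈ ⋃ m, shell J y m := by
  have hT0 : 0 < T := hT.out
  filter_upwards [ae_ne y] with x hx
  have h1 : ∀ i : {i // i ∉ J}, ∃ m : ℕ, T / 2 ^ (m + 2) < ‖x i - y i‖ ∧
      ‖x i - y i‖ ≤ T / 2 ^ (m + 1) := by
    intro i
    apply exists_shell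
    · rw [norm_pos_iff]
      exact sub_ne_zero.2 (hx i)
    · have := AddCircle.norm_le_half_period T (x := x i - y i) hT0.ne'
      rwa [abs_of_pos hT0] at this
  choose m hm using h1
  exact Set.mem_iUnion.2 ⟨m, hm⟩

/-- The density is decreasing in the coordinates off `J`, away from `y`. -/
def DecrOff (J : Finset (Fin d)) (y : Fin d → AddCircle T)
    (f : (Fin d → AddCircle T) → ℝ≥0∞) : Prop :=
  ∀ x x', (∀ i ∈ J, x i = x' i) → (∀ i ∉ J, ‖x i - y i‖ ≤ ‖x' i - y i‖) → f x' ≤ f x

/-- On a shell the density is bounded by a function of the coordinates in `J`. -/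
theorem shell_majorant (J : Finset (Fin d)) (y : Fin d → AddCircle T)
    (f : (Fin d → AddCircle T) → ℝ≥0∞) (hfm : Measurable f) (hf : DecrOff J y f)
    (p : ℝ) (hp : 0 < p) (m : {i // i ∉ J} → ℕ) :
    ∃ g : (Fin d → AddCircle T) → ℝ≥0∞, Measurable g ∧ DependsOn g (J : Set (Fin d)) ∧
      (∀ x ∈ shell J y m, f x ≤ g x) ∧
      (∫⁻ x, g x ^ p) ≤ ENNReal.ofReal ((2 : ℝ) ^ (Fintype.card {i // i ∉ J} + ∑ i, m i)) *
        ∫⁻ x, f x ^ p := by
  classical
  have hT0 : 0 < T := hT.out
  let c : Fin d → AddCircle T := fun i =>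
    if h : i ∈ J then 0 else y i + ((T / 2 ^ (m ⟨i, h⟩ + 2) : ℝ) : AddCircle T)
  let σ : (Fin d → AddCircle T) → (Fin d → AddCircle T) := fun x i => if i ∈ J then x i else c i
  have hσm : Measurable σ := by
    apply measurable_pi_lambda
    intro i
    by_cases h : i ∈ J
    · simp only [σ, if_pos h]
      exact measurable_pi_apply _
    · simp only [σ, if_neg h]
      exact measurable_const
  have hcn : ∀ i : {i // i ∉ J}, ‖c i - y i‖ = T / 2 ^ (m i + 2) := by
    intro i
    simp only [c, dif_neg i.2]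
    rw [add_sub_cancel_left]
    have h1 : T / 2 ^ (m i + 2) ≤ T / 2 := by
      apply div_le_div_of_nonneg_left hT0.le (by norm_num)
      calc (2 : ℝ) = 2 ^ 1 := by norm_num
        _ ≤ 2 ^ (m i + 2) := pow_le_pow_right₀ (by norm_num) (by omega)
    rw [AddCircle.norm_coe_eq_abs_iff T hT0.ne' |>.2]
    · rw [abs_of_pos (by positivity)]
    · rw [abs_of_pos (by positivity), abs_of_pos hT0]
      exact h1
  refine ⟨fun x => f (σ x), hfm.comp hσm, ?_, ?_, ?_⟩
  · intro x x' hxx
    have : σ x = σ x' := by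
      funext i
      by_cases h : i ∈ J
      · simp only [σ, if_pos h]
        exact hxx i h
      · simp only [σ, if_neg h]
    show f (σ x) = f (σ x')
    rw [this]
  · intro x hx
    apply hf
    · intro i hi
      simp only [σ, if_pos hi]
    · intro i hi
      simp only [σ, if_neg hi]
      rw [hcn ⟨i, hi⟩]
      exact (hx ⟨i, hi⟩).1.le
  · -- the norm of the majorant
    let S : Fin d → Set (AddCircle T) := fun i =>
      if h : i ∈ J then Set.univ else Metric.closedBall (y i) (T / 2 ^ (m ⟨i, h⟩ + 2))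
    have hS : ∀ i, MeasurableSet (S i) := by
      intro i
      by_cases h : i ∈ J
      · simp only [S, dif_pos h]; exact MeasurableSet.univ
      · simp only [S, dif_neg h]; exact Metric.isClosed_closedBall.measurableSet
    have hdep : DependsOn (fun x => f (σ x) ^ p) (J : Set (Fin d)) := by
      intro x x' hxx
      have : σ x = σ x' := by
        funext i
        by_cases h : i ∈ J
        · simp only [σ, if_pos h]
          exact hxx i h
        · simp only [σ, if_neg h]
      show f (σ x) ^ p = f (σ x') ^ p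
      rw [this]
    have hind := indep J (fun x => f (σ x) ^ p) ((hfm.comp hσm).pow_const p) hdep S hS
    have hle : ∫⁻ x in {x : Fin d → AddCircle T | ∀ i, i ∉ J → x i ∈ S i}, f (σ x) ^ p ≤
        ∫⁻ x, f x ^ p := by
      refine le_trans ?_ (setLIntegral_le_lintegral
        {x : Fin d → AddCircle T | ∀ i, i ∉ J → x i ∈ S i} _)
      apply setLIntegral_mono (hfm.pow_const p)
      intro x hx
      apply ENNReal.rpow_le_rpow _ hp.le
      apply hf
      · intro i hi
        simp only [σ, if_pos hi]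
      · intro i hi
        simp only [σ, if_neg hi]
        rw [hcn ⟨i, hi⟩]
        have h4 := hx i hi
        simp only [S, dif_neg hi] at h4
        rwa [Metric.mem_closedBall, dist_eq_norm] at h4
    have hvol : ∏ i : {i // i ∉ J}, volume (S i) =
        ENNReal.ofReal (T ^ (Fintype.card {i // i ∉ J}) *
          ((2 : ℝ) ^ (Fintype.card {i // i ∉ J} + ∑ i, m i))⁻¹) := by
      have h1 : ∀ i : {i // i ∉ J}, volume (S i) =
          ENNReal.ofReal (T * ((2 : ℝ) ^ (1 + m i))⁻¹) := by
        intro i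
        simp only [S, dif_neg i.2]
        rw [AddCircle.volume_closedBall]
        congr 1
        have h2 : 2 * (T / 2 ^ (m i + 2)) = T * ((2 : ℝ) ^ (1 + m i))⁻¹ := by
          rw [pow_add, pow_add]; field_simp
        rw [h2]
        apply min_eq_right
        have h3 : ((2 : ℝ) ^ (1 + m i))⁻¹ ≤ 1 :=
          inv_le_one_of_one_le₀ (one_le_pow₀ (by norm_num))
        nlinarith
      rw [Finset.prod_congr rfl (fun i _ => h1 i),
        ← ENNReal.ofReal_prod_of_nonneg (fun i _ => by positivity)]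
      congr 1
      rw [Finset.prod_mul_distrib, Finset.prod_const, card_univ, Finset.prod_inv_distrib,
        Finset.prod_pow_eq_pow_sum, Finset.sum_add_distrib]
      simp
    have hvolu : volume (Set.univ : Set ({i // ¬ i ∈ J} → AddCircle T)) =
        ENNReal.ofReal (T ^ (Fintype.card {i // i ∉ J})) := by
      rw [← Set.pi_univ Set.univ, volume_pi_pi]
      simp [AddCircle.measure_univ, ENNReal.ofReal_pow hT0.le]
    rw [hvol, hvolu] at hind
    set L : ℝ := (2 : ℝ) ^ (Fintype.card {i // i ∉ J} + ∑ i, m i) with hL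
    set P : ℝ := T ^ (Fintype.card {i // i ∉ J}) with hP
    have hL0 : 0 < L := by positivity
    have hP0 : 0 < P := by positivity
    calc ∫⁻ x, f (σ x) ^ p = (∫⁻ x, f (σ x) ^ p) *
          ENNReal.ofReal (P * L⁻¹) * ENNReal.ofReal (L / P) := by
          rw [mul_assoc, ← ENNReal.ofReal_mul (by positivity)]
          rw [show P * L⁻¹ * (L / P) = 1 by field_simp, ENNReal.ofReal_one, mul_one]
      _ = ENNReal.ofReal P * (∫⁻ x in {x : Fin d → AddCircle T | ∀ i, i ∉ J → x i ∈ S i},
          f (σ x) ^ p) * ENNReal.ofReal (L / P) := by rw [hind]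
      _ ≤ ENNReal.ofReal P * (∫⁻ x, f x ^ p) * ENNReal.ofReal (L / P) :=
          mul_le_mul_left (mul_le_mul_right hle _) _
      _ = ENNReal.ofReal P * ENNReal.ofReal (L / P) * ∫⁻ x, f x ^ p := by ring
      _ = ENNReal.ofReal L * ∫⁻ x, f x ^ p := by
          rw [← ENNReal.ofReal_mul hP0.le]
          congr 2
          field_simp

/-- **From shells to the trace inequality.** -/
theorem engine (J : Finset (Fin d)) (p θ K : ℝ) (hp : 0 < p) (hK : 0 < K) (hθ : 1 / p < θ) :
    ∃ C : ℝ≥0, ∀ (y : Fin d → AddCircle T) (f : (Fin d → AddCircle T) → ℝ≥0∞),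
      Measurable f → DecrOff J y f → ∀ (w : (Fin d → AddCircle T) → ℝ≥0∞), Measurable w →
      (∀ (m : {i // i ∉ J} → ℕ) (g : (Fin d → AddCircle T) → ℝ≥0∞), Measurable g →
        DependsOn g (J : Set (Fin d)) → ∀ Γ : ℝ, 0 < Γ →
        (∫⁻ x, g x ^ p) ^ (1 / p) ≤ ENNReal.ofReal Γ →
        ∫⁻ x in shell J y m, w x * g x ≤
          ENNReal.ofReal (K * Γ * (2 : ℝ) ^ (-(θ * ∑ i, (m i : ℝ)))) * ∫⁻ x, w x) →
      ∫⁻ x, w x * f x ≤ C * (∫⁻ x, f x ^ p) ^ (1 / p) * ∫⁻ x, w x := by
  classical
  have hT0 : 0 < T := hT.out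
  set δ : ℝ := θ - 1 / p with hδdef
  have hδ0 : 0 < δ := by linarith
  set r : ℝ≥0∞ := ENNReal.ofReal ((2 : ℝ) ^ (-δ)) with hr
  have hr1 : r < 1 := by
    rw [hr, ← ENNReal.ofReal_one]
    rw [ENNReal.ofReal_lt_ofReal_iff (by norm_num)]
    exact Real.rpow_lt_one_of_one_lt_of_neg (by norm_num) (by linarith)
  set D : ℕ := Fintype.card {i // i ∉ J} with hD
  set C₀ : ℝ≥0∞ := ENNReal.ofReal (K * (2 : ℝ) ^ ((D : ℝ) / p)) * (1 - r)⁻¹ ^ D with hC₀
  have hC₀top : C₀ ≠ ∞ := by
    apply ENNReal.mul_ne_top ENNReal.ofReal_ne_top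
    apply ENNReal.pow_ne_top
    rw [ENNReal.inv_ne_top]
    exact (tsub_pos_of_lt hr1).ne'
  have hC₀pos : C₀ ≠ 0 := by
    rw [hC₀]
    apply mul_ne_zero (ENNReal.ofReal_pos.2 (by positivity)).ne'
    apply pow_ne_zero
    rw [ENNReal.inv_ne_zero]
    exact (lt_of_le_of_lt tsub_le_self ENNReal.one_lt_top).ne
  refine ⟨C₀.toNNReal, ?_⟩
  rw [ENNReal.coe_toNNReal hC₀top]
  intro y f hfm hf w hw H
  set F : ℝ≥0∞ := (∫⁻ x, f x ^ p) ^ (1 / p) with hF
  -- trivial cases
  by_cases hE : ∫⁻ x, w x = 0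
  · have h0 : w =ᵐ[volume] 0 := (lintegral_eq_zero_iff hw).1 hE
    have : ∫⁻ x, w x * f x = 0 := by
      rw [← lintegral_zero (μ := (volume : Measure (Fin d → AddCircle T)))]
      apply lintegral_congr_ae
      filter_upwards [h0] with x hx
      rw [hx]; simp
    rw [this]
    exact zero_le
  by_cases hFtop : F = ∞
  · rw [hFtop, ENNReal.mul_top hC₀pos, ENNReal.top_mul hE]
    exact le_top
  by_cases hF0 : F = 0
  · have h1 : ∫⁻ x, f x ^ p = 0 := by
      rw [hF, ENNReal.rpow_eq_zero_iff] at hF0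
      rcases hF0 with h | h
      · exact h.1
      · exfalso
        have : 0 < 1 / p := by positivity
        linarith [h.2]
    have h0 : (fun x => f x ^ p) =ᵐ[volume] 0 :=
      (lintegral_eq_zero_iff (hfm.pow_const p)).1 h1
    have : ∫⁻ x, w x * f x = 0 := by
      rw [← lintegral_zero (μ := (volume : Measure (Fin d → AddCircle T)))]
      apply lintegral_congr_ae
      filter_upwards [h0] with x hx
      have h2 : f x = 0 := by
        have h3 : f x ^ p = 0 := hx
        rw [ENNReal.rpow_eq_zero_iff] at h3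
        rcases h3 with h | h
        · exact h.1
        · exfalso; linarith [h.2]
      rw [h2]; simp
    rw [this]
    exact zero_le
  have hFr : 0 < F.toReal := ENNReal.toReal_pos hF0 hFtop
  have hFof : F = ENNReal.ofReal F.toReal := (ENNReal.ofReal_toReal hFtop).symm
  -- estimate on a shell
  have hshell : ∀ m, ∫⁻ x in shell J y m, w x * f x ≤
      F * ENNReal.ofReal (K * (2 : ℝ) ^ ((D : ℝ) / p)) * (∫⁻ x, w x) * r ^ (∑ i, m i) := by
    intro m
    obtain ⟨g, hgm, hgd, hfg, hgp⟩ := shell_majorant J y f hfm hf p hp m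
    set L : ℝ := (2 : ℝ) ^ (D + ∑ i, m i) with hL
    have hL0 : 0 < L := by positivity
    have hΓ : (∫⁻ x, g x ^ p) ^ (1 / p) ≤ ENNReal.ofReal (L ^ (1 / p) * F.toReal) := by
      calc (∫⁻ x, g x ^ p) ^ (1 / p) ≤ (ENNReal.ofReal L * ∫⁻ x, f x ^ p) ^ (1 / p) :=
            ENNReal.rpow_le_rpow hgp (by positivity)
        _ = ENNReal.ofReal (L ^ (1 / p)) * F := by
            rw [ENNReal.mul_rpow_of_nonneg _ _ (by positivity), ENNReal.ofReal_rpow_of_pos hL0]
        _ = ENNReal.ofReal (L ^ (1 / p) * F.toReal) := by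
            rw [ENNReal.ofReal_mul (by positivity), ← hFof]
    calc ∫⁻ x in shell J y m, w x * f x ≤ ∫⁻ x in shell J y m, w x * g x := by
          apply setLIntegral_mono' (measurableSet_shell J y m)
          intro x hx
          exact mul_le_mul_right (hfg x hx) _
      _ ≤ ENNReal.ofReal (K * (L ^ (1 / p) * F.toReal) *
            (2 : ℝ) ^ (-(θ * ∑ i, (m i : ℝ)))) * ∫⁻ x, w x :=
          H m g hgm hgd _ (by positivity) hΓ
      _ = ENNReal.ofReal (F.toReal * (K * (2 : ℝ) ^ ((D : ℝ) / p)) *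
            ((2 : ℝ) ^ (-δ)) ^ (∑ i, m i)) * ∫⁻ x, w x := by
          congr 2
          have h1 : L ^ (1 / p) = (2 : ℝ) ^ ((D : ℝ) / p) *
              (2 : ℝ) ^ ((1 / p) * ∑ i, (m i : ℝ)) := by
            rw [hL, ← Real.rpow_natCast, ← Real.rpow_mul (by norm_num), ← Real.rpow_add
              (by norm_num)]
            congr 1
            push_cast
            ring
          have h2 : ((2 : ℝ) ^ (-δ)) ^ (∑ i, m i) = (2 : ℝ) ^ ((1 / p) * ∑ i, (m i : ℝ)) *
              (2 : ℝ) ^ (-(θ * ∑ i, (m i : ℝ))) := by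
            rw [← Real.rpow_natCast, ← Real.rpow_mul (by norm_num), ← Real.rpow_add
              (by norm_num)]
            congr 1
            rw [hδdef]
            push_cast
            ring
          rw [h1, h2]
          ring
      _ = _ := by
          rw [ENNReal.ofReal_mul (by positivity), ENNReal.ofReal_mul hFr.le, ← hFof,
            ENNReal.ofReal_pow (by positivity)]
          ring
  calc ∫⁻ x, w x * f x = ∫⁻ x in ⋃ m, shell J y m, w x * f x := by
        rw [Measure.restrict_eq_self_of_ae_mem (ae_mem_shell J y)]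
    _ ≤ ∑' m, ∫⁻ x in shell J y m, w x * f x := lintegral_iUnion_le _ _
    _ ≤ ∑' m : {i // i ∉ J} → ℕ,
        F * ENNReal.ofReal (K * (2 : ℝ) ^ ((D : ℝ) / p)) * (∫⁻ x, w x) * r ^ (∑ i, m i) :=
        ENNReal.tsum_le_tsum hshell
    _ = C₀ * F * ∫⁻ x, w x := by
        rw [ENNReal.tsum_mul_left, tsum_pi_geometric', ENNReal.tsum_geometric, hC₀]
        ring

/-- the exponent gap -/
theorem exists_eps (κ ρ p : ℝ) (hκ : 0 < κ) (hρ : 0 < ρ) (h : 1 / p < κ * ρ) :
    ∃ ε : ℝ, 0 < ε ∧ ε < 1 ∧ 1 / p < (1 - ε) * κ * ρ := by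
  have hkr : 0 < κ * ρ := by positivity
  rcases le_or_gt (1 / p) 0 with h0 | h0
  · refine ⟨1 / 2, by norm_num, by norm_num, ?_⟩
    have : 0 < (1 - 1 / 2) * κ * ρ := by positivity
    linarith
  · have h1 : 1 / p / (κ * ρ) < 1 := by rwa [div_lt_one hkr]
    have h2 : 0 < 1 / p / (κ * ρ) := by positivity
    refine ⟨(1 - 1 / p / (κ * ρ)) / 2, by linarith, by linarith, ?_⟩
    have h3 : 1 / p = (1 / p / (κ * ρ)) * (κ * ρ) := by field_simp
    calc 1 / p = (1 / p / (κ * ρ)) * (κ * ρ) := h3
      _ < (1 - (1 - 1 / p / (κ * ρ)) / 2) * (κ * ρ) := by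
          apply mul_lt_mul_of_pos_right _ hkr
          linarith
      _ = _ := by ring

/-- **Trace inequality for densities which are arbitrary in the coordinates of `J` and
decreasing in the other ones**, given an `L ^ q` trace inequality for densities depending on
the coordinates of `J` only. -/
theorem trace_mixed_aux (hd : 2 ≤ d) (J : Finset (Fin d)) (q p Cq : ℝ) (hq : 0 < q)
    (hqp : q < p) (hCq : 0 ≤ Cq)
    (hE : ∀ g : (Fin d → AddCircle T) → ℝ≥0∞, Measurable g → DependsOn g (J : Set (Fin d)) →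
      ∀ (n : ℤ) (s : Finset (Fin d → ℤ)) (a : (Fin d → ℤ) → ℂ), (∀ k ∈ s, ∑ i, k i ^ 2 = n) →
      ∫⁻ x, ‖∑ k ∈ s, a k * chi k x‖ₑ ^ 2 * g x ≤ ENNReal.ofReal Cq *
        (∫⁻ x, g x ^ q) ^ (1 / q) *
        ∫⁻ x : Fin d → AddCircle T, ‖∑ k ∈ s, a k * chi k x‖ₑ ^ 2)
    (hκ : 1 / p < min 1 (2 / ((d : ℝ) - J.card)) * (1 - q / p))
    (hJd : J.card < d) :
    ∃ C : ℝ≥0, ∀ (y : Fin d → AddCircle T) (f : (Fin d → AddCircle T) → ℝ≥0∞),
      Measurable f → DecrOff J y f →
      ∀ (n : ℤ) (s : Finset (Fin d → ℤ)) (a : (Fin d → ℤ) → ℂ), (∀ k ∈ s, ∑ i, k i ^ 2 = n) →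
      ∫⁻ x, ‖∑ k ∈ s, a k * chi k x‖ₑ ^ 2 * f x ≤ C * (∫⁻ x, f x ^ p) ^ (1 / p) *
        ∫⁻ x : Fin d → AddCircle T, ‖∑ k ∈ s, a k * chi k x‖ₑ ^ 2 := by
  classical
  have hp : 0 < p := hq.trans hqp
  have hDpos : (0 : ℝ) < (d : ℝ) - J.card := by
    have : (J.card : ℝ) < d := by exact_mod_cast hJd
    linarith
  set κ : ℝ := min 1 (2 / ((d : ℝ) - J.card)) with hκdef
  have hκ0 : 0 < κ := lt_min one_pos (by positivity)
  have hρ : 0 < 1 - q / p := by
    have : q / p < 1 := by rwa [div_lt_one hp]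
    linarith
  obtain ⟨ε, hε0, hε1, hε⟩ := exists_eps κ (1 - q / p) p hκ0 hρ hκ
  obtain ⟨K, hK0, hK⟩ := eigen_box (T := T) hd J ε hε0 hε1
  obtain ⟨C, hC⟩ := engine (T := T) J p ((1 - ε) * κ * (1 - q / p))
    ((1 + Cq) * K ^ (1 - q / p)) hp (by positivity) hε
  refine ⟨C, ?_⟩
  intro y f hfm hf n s a hs
  apply hC y f hfm hf _ ((continuous_poly s a).measurable.enorm.pow_const 2)
  intro m g hgm hgd Γ hΓ hΓ2
  have h1 := interp (fun x => ‖∑ k ∈ s, a k * chi k x‖ₑ ^ 2) g
    ((continuous_poly s a).measurable.enorm.pow_const 2) hgm (shell J y m)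
    (∫⁻ x : Fin d → AddCircle T, ‖∑ k ∈ s, a k * chi k x‖ₑ ^ 2)
    (K * (2 : ℝ) ^ (-((1 - ε) * (κ * ∑ i, (m i : ℝ))))) Cq Γ q p (by positivity) hCq hΓ hq hqp
    (hK n s a hs y m (shell J y m) (fun x hx i => (hx i).2))
    (fun c => hE (fun x => c * g x ^ (p / q)) ((hgm.pow_const _).const_mul _)
      (fun x x' hxx => by
        show c * g x ^ (p / q) = c * g x' ^ (p / q)
        rw [hgd hxx]) n s a hs) hΓ2
  refine h1.trans (le_of_eq ?_)
  congr 2
  rw [Real.mul_rpow hK0.le (by positivity), ← Real.rpow_mul (by norm_num)]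
  rw [show -((1 - ε) * (κ * ∑ i, (m i : ℝ))) * (1 - q / p) =
    -((1 - ε) * κ * (1 - q / p) * ∑ i, (m i : ℝ)) by ring]
  ring

end

end Pool.Agent.TorusTrace
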