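import Pool.Agent.TorusTrace.GaussCount

set_option autoImplicit false

/-!
Counting lattice points of a sphere in a box, by slicing with coordinate 2-planes.
-/

namespace Pool.Agent.TorusTrace

open Finset

/-- Lattice points of the sphere `∑ k_i ^ 2 = n` in a box with side lengths `M i`. -/
theorem sphere_box (ε : ℝ) (hε : 0 < ε) : ∃ C : ℝ, 1 ≤ C ∧ ∀ (d : ℕ) (i₀ j₀ : Fin d), i₀ ≠ j₀ →
    ∀ (n : ℤ) (M : Fin d → ℕ) (c : Fin d → ℤ) (s : Finset (Fin d → ℤ)), (∀ i, 1 ≤ M i) →
    (∀ k ∈ s, ∑ i, k i ^ 2 = n) → (∀ k ∈ s, ∀ i, c i ≤ k i ∧ k i < c i + M i) →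
    (s.card : ℝ) ≤ (∏ i ∈ univ.filter (fun i => i ≠ i₀ ∧ i ≠ j₀), (M i : ℝ)) *
      (C * (1 + (max (M i₀) (M j₀) : ℕ) : ℝ) ^ ε) := by
  classical
  obtain ⟨C, hC1, hC⟩ := circle_box ε hε
  refine ⟨C, hC1, ?_⟩
  intro d i₀ j₀ hij n M c s hM hn hbox
  set R : ℕ := max (M i₀) (M j₀) with hR
  set S : Finset (Fin d) := univ.filter (fun i => i ≠ i₀ ∧ i ≠ j₀) with hS
  let f : (Fin d → ℤ) → (Fin d → ℤ) := fun k i => if i ∈ S then k i else 0
  let t : Finset (Fin d → ℤ) := Fintype.piFinset (fun i => if i ∈ S then Ico (c i) (c i + M i)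
    else {0})
  have hf : ∀ k ∈ s, f k ∈ t := by
    intro k hk
    rw [Fintype.mem_piFinset]
    intro i
    by_cases hi : i ∈ S
    · simp only [f, if_pos hi]
      rw [mem_Ico]
      exact hbox k hk i
    · simp only [f, if_neg hi, mem_singleton]
  have ht : t.card = ∏ i ∈ S, M i := by
    simp only [t]
    rw [Fintype.card_piFinset]
    rw [← Finset.prod_subset (subset_univ S)]
    · apply Finset.prod_congr rfl
      intro i hi
      rw [if_pos hi, Int.card_Ico]
      simp
    · intro i _ hi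
      rw [if_neg hi, card_singleton]
  have hB0 : 0 ≤ C * (1 + (R : ℝ)) ^ ε := by positivity
  have hfib : ∀ b ∈ t, (s.filter (fun k => f k = b)).card ≤ ⌊C * (1 + (R : ℝ)) ^ ε⌋₊ := by
    intro b _
    apply Nat.le_floor
    let g : (Fin d → ℤ) → ℤ × ℤ := fun k => (k i₀, k j₀)
    have hinj : Set.InjOn g (↑(s.filter (fun k => f k = b)) : Set (Fin d → ℤ)) := by
      intro k hk l hl hkl
      rw [mem_coe, mem_filter] at hk hl
      have hfe : f k = f l := by rw [hk.2, hl.2]
      funext i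
      by_cases hi : i ∈ S
      · have := congrFun hfe i
        simpa only [f, if_pos hi] using this
      · have hi2 : i = i₀ ∨ i = j₀ := by
          by_contra hcon
          rw [not_or] at hcon
          exact hi (by rw [hS, mem_filter]; exact ⟨mem_univ _, hcon⟩)
        rcases hi2 with h | h
        · rw [h]; exact congrArg Prod.fst hkl
        · rw [h]; exact congrArg Prod.snd hkl
    rw [← card_image_of_injOn hinj]
    apply hC (n - ∑ i ∈ S, b i ^ 2) R
    · intro z hz
      rw [mem_image] at hz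
      obtain ⟨k, hk, rfl⟩ := hz
      rw [mem_filter] at hk
      have hsum : ∑ i, k i ^ 2 = ∑ i ∈ S, k i ^ 2 + (k i₀ ^ 2 + k j₀ ^ 2) := by
        rw [← Finset.sum_add_sum_compl S]
        congr 1
        have hcompl : Sᶜ = {i₀, j₀} := by
          ext i
          simp only [hS, mem_compl, mem_filter, mem_univ, true_and, mem_insert, mem_singleton,
            not_and_or, not_not]
        rw [hcompl, Finset.sum_pair hij]
      have hbS : ∑ i ∈ S, b i ^ 2 = ∑ i ∈ S, k i ^ 2 := by
        apply Finset.sum_congr rfl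
        intro i hi
        rw [← hk.2]
        simp only [f, if_pos hi]
      rw [hbS]
      have := hn k hk.1
      simp only [g]
      linarith
    · intro z hz w hw
      rw [mem_image] at hz hw
      obtain ⟨k, hk, rfl⟩ := hz
      obtain ⟨l, hl, rfl⟩ := hw
      rw [mem_filter] at hk hl
      have h1 := hbox k hk.1 i₀
      have h2 := hbox l hl.1 i₀
      have h3 := hbox k hk.1 j₀
      have h4 := hbox l hl.1 j₀
      have h5 : (M i₀ : ℤ) ≤ R := by exact_mod_cast le_max_left _ _
      have h6 : (M j₀ : ℤ) ≤ R := by exact_mod_cast le_max_right _ _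
      simp only [g]
      constructor
      · rw [abs_le]; constructor <;> linarith
      · rw [abs_le]; constructor <;> linarith
  have hcard := Finset.card_le_mul_card_image_of_maps_to hf _ hfib
  calc (s.card : ℝ) ≤ ((⌊C * (1 + (R : ℝ)) ^ ε⌋₊ * t.card : ℕ) : ℝ) := by exact_mod_cast hcard
    _ = (⌊C * (1 + (R : ℝ)) ^ ε⌋₊ : ℝ) * ∏ i ∈ S, (M i : ℝ) := by rw [ht]; push_cast; ring
    _ ≤ (C * (1 + (R : ℝ)) ^ ε) * ∏ i ∈ S, (M i : ℝ) := by
        apply mul_le_mul_of_nonneg_right (Nat.floor_le hB0)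
        exact Finset.prod_nonneg (fun i _ => Nat.cast_nonneg _)
    _ = _ := by rw [mul_comm]

end Pool.Agent.TorusTrace
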